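import Pool.Agent.Lib.MP_91c05b_co.Defs

/-! Basic facts on wires and crossings of the unrolled wiring diagram. -/

namespace Pool.Agent.Lib.MP_91c05b_co

namespace Crossing

variable (v : Crossing)

/-- the crossing turned upside down -/
def flip (n : ℕ) : Crossing := ⟨n - 1 - v.hi, n - 1 - v.lo⟩

variable {v}

theorem move_of_has {p : ℕ} (h : v.Has p) : v.move p = v.lo + v.hi - p := by
  unfold move Has at *; rw [if_pos h]

theorem move_of_not_has {p : ℕ} (h : ¬ v.Has p) : v.move p = p := by
  unfold move Has at *; rw [if_neg h]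

theorem has_move {p : ℕ} : v.Has (v.move p) ↔ v.Has p := by
  unfold move Has
  split_ifs with h
  · constructor
    · intro _; exact h
    · intro _; omega
  · rfl

theorem move_move (p : ℕ) : v.move (v.move p) = p := by
  by_cases h : v.Has p
  · rw [move_of_has (has_move.2 h), move_of_has h]
    unfold Has at h; omega
  · rw [move_of_not_has (has_move.not.2 h), move_of_not_has h]

theorem move_inj {p q : ℕ} (h : v.move p = v.move q) : p = q := by
  rw [← v.move_move p, h, move_move]

theorem move_lt {n p : ℕ} (hv : v.hi < n) (hp : p < n) : v.move p < n := by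
  by_cases h : v.Has p
  · rw [move_of_has h]; unfold Has at h; omega
  · rwa [move_of_not_has h]

theorem move_lt_move_of_has {p q : ℕ} (hp : v.Has p) (hq : v.Has q) (h : p < q) :
    v.move q < v.move p := by
  rw [move_of_has hp, move_of_has hq]; unfold Has at *; omega

theorem move_lt_move_of_not {p q : ℕ} (hpq : ¬ (v.Has p ∧ v.Has q)) (h : p < q) :
    v.move p < v.move q := by
  by_cases hp : v.Has p
  · have hq : ¬ v.Has q := fun hq => hpq ⟨hp, hq⟩
    rw [move_of_has hp, move_of_not_has hq]; unfold Has at *; omega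
  · by_cases hq : v.Has q
    · rw [move_of_has hq, move_of_not_has hp]; unfold Has at *; omega
    · rwa [move_of_not_has hp, move_of_not_has hq]

theorem flip_valid {n : ℕ} (h1 : v.lo < v.hi) (h2 : v.hi < n) :
    (v.flip n).lo < (v.flip n).hi ∧ (v.flip n).hi < n := by
  simp only [flip]; omega

theorem flip_flip {n : ℕ} (h1 : v.lo < v.hi) (h2 : v.hi < n) : (v.flip n).flip n = v := by
  cases v with
  | mk lo hi =>
    simp only [flip] at *
    congr 1 <;> omega

theorem flip_cuts {n g : ℕ} (h1 : v.lo < v.hi) (h2 : v.hi < n) (hg : g ≤ n) :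
    (v.flip n).Cuts g ↔ v.Cuts (n - g) := by
  simp only [flip, Cuts]; omega

theorem flip_touches {n g : ℕ} (h1 : v.lo < v.hi) (h2 : v.hi < n) (hg : g < n) :
    (v.flip n).Touches g ↔ v.Touches (n - g) := by
  simp only [flip, Touches]; omega

theorem flip_has {n p : ℕ} (h1 : v.lo < v.hi) (h2 : v.hi < n) (hp : p < n) :
    (v.flip n).Has (n - 1 - p) ↔ v.Has p := by
  simp only [flip, Has]; omega

theorem flip_move {n p : ℕ} (h1 : v.lo < v.hi) (h2 : v.hi < n) (hp : p < n) :
    (v.flip n).move (n - 1 - p) = n - 1 - v.move p := by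
  by_cases h : v.Has p
  · rw [move_of_has h, move_of_has ((flip_has h1 h2 hp).2 h)]
    simp only [flip, Has] at *; omega
  · rw [move_of_not_has h, move_of_not_has ((flip_has h1 h2 hp).not.2 h)]

end Crossing

namespace Arrangement

variable {n : ℕ} (A : Arrangement n)

/-- position in the unrolled diagram -/
def P (t i : ℕ) : ℕ := pos A.unroll t i

/-- the wires `i`, `j` run through the crossing number `t` of the unrolled diagram -/
def Meet (t i j : ℕ) : Prop := (A.unroll t).Has (A.P t i) ∧ (A.unroll t).Has (A.P t j)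

theorem P_zero (i : ℕ) : A.P 0 i = i := rfl

theorem P_succ (t i : ℕ) : A.P (t + 1) i = (A.unroll t).move (A.P t i) := rfl

theorem unroll_of_lt {t : ℕ} (h : t < A.size) : A.unroll t = A.c t := by
  unfold unroll
  rw [Nat.div_eq_of_lt h, Nat.mod_eq_of_lt h, if_pos (by norm_num)]

theorem P_of_le {t : ℕ} (h : t ≤ A.size) (i : ℕ) : A.P t i = pos A.c t i := by
  induction t with
  | zero => rfl
  | succ t ih =>
    rw [P_succ, ih (by omega), A.unroll_of_lt (by omega)]; rfl

theorem size_pos (hn : 2 ≤ n) : 0 < A.size := by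
  obtain ⟨t, ht, _⟩ := A.cross 0 1 (by norm_num) (by omega)
  have := ht.1
  omega

theorem unroll_add (hs : 0 < A.size) (t : ℕ) :
    A.unroll (t + A.size) = (A.unroll t).flip n := by
  have hm : t % A.size < A.size := Nat.mod_lt _ hs
  obtain ⟨h1, h2⟩ := A.valid _ hm
  unfold unroll
  rw [Nat.add_div_right _ hs, Nat.add_mod_right]
  by_cases h : (t / A.size) % 2 = 0
  · rw [if_pos h, if_neg (by omega)]; rfl
  · rw [if_neg h, if_pos (by omega)]
    have := Crossing.flip_flip h1 h2
    exact this.symm

theorem unroll_valid (hs : 0 < A.size) (t : ℕ) :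
    (A.unroll t).lo < (A.unroll t).hi ∧ (A.unroll t).hi < n := by
  have hm : t % A.size < A.size := Nat.mod_lt _ hs
  obtain ⟨h1, h2⟩ := A.valid _ hm
  unfold unroll
  split_ifs
  · exact ⟨h1, h2⟩
  · exact Crossing.flip_valid h1 h2

theorem unroll_add_two (hs : 0 < A.size) (t : ℕ) :
    A.unroll (t + 2 * A.size) = A.unroll t := by
  have : t + 2 * A.size = (t + A.size) + A.size := by ring
  rw [this, A.unroll_add hs, A.unroll_add hs]
  exact Crossing.flip_flip (A.unroll_valid hs t).1 (A.unroll_valid hs t).2

theorem P_lt (hs : 0 < A.size) {i : ℕ} (hi : i < n) (t : ℕ) : A.P t i < n := by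
  induction t with
  | zero => exact hi
  | succ t ih => exact Crossing.move_lt (A.unroll_valid hs t).2 ih

theorem P_inj {t i j : ℕ} (h : A.P t i = A.P t j) : i = j := by
  induction t with
  | zero => exact h
  | succ t ih => exact ih (Crossing.move_inj h)

theorem P_surj (hs : 0 < A.size) (t : ℕ) {p : ℕ} (hp : p < n) : ∃ i < n, A.P t i = p := by
  induction t generalizing p with
  | zero => exact ⟨p, hp, rfl⟩
  | succ t ih =>
    obtain ⟨i, hi, h⟩ := ih (Crossing.move_lt (A.unroll_valid hs t).2 hp)
    exact ⟨i, hi, by rw [P_succ, h, Crossing.move_move]⟩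

theorem meet_comm {t i j : ℕ} : A.Meet t i j ↔ A.Meet t j i := by
  unfold Meet; tauto

theorem exists_meet {i j : ℕ} (hi : i < n) (hj : j < n) (hij : i ≠ j) :
    ∃! t, t < A.size ∧ A.Meet t i j := by
  rcases Nat.lt_or_gt_of_ne hij with h | h
  · obtain ⟨t, ⟨h1, h2, h3⟩, h4⟩ := A.cross i j h hj
    refine ⟨t, ⟨h1, ?_⟩, ?_⟩
    · unfold Meet; rw [A.unroll_of_lt h1, A.P_of_le h1.le, A.P_of_le h1.le]; exact ⟨h2, h3⟩
    · rintro s ⟨hs, hm⟩
      unfold Meet at hm
      rw [A.unroll_of_lt hs, A.P_of_le hs.le, A.P_of_le hs.le] at hm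
      exact h4 s ⟨hs, hm.1, hm.2⟩
  · obtain ⟨t, ⟨h1, h2, h3⟩, h4⟩ := A.cross j i h hi
    refine ⟨t, ⟨h1, ?_⟩, ?_⟩
    · unfold Meet; rw [A.unroll_of_lt h1, A.P_of_le h1.le, A.P_of_le h1.le]; exact ⟨h3, h2⟩
    · rintro s ⟨hs, hm⟩
      unfold Meet at hm
      rw [A.unroll_of_lt hs, A.P_of_le hs.le, A.P_of_le hs.le] at hm
      exact h4 s ⟨hs, hm.2, hm.1⟩

/-- the order of two wires is reversed by the diagram -/
theorem order_size {i j : ℕ} (hij : i < j) (hj : j < n) : A.P A.size j < A.P A.size i := by
  obtain ⟨t0, ⟨h1, h2⟩, h3⟩ := A.exists_meet (hij.trans hj) hj hij.ne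
  have key : ∀ t ≤ A.size, (t ≤ t0 → A.P t i < A.P t j) ∧ (t0 < t → A.P t j < A.P t i) := by
    intro t
    induction t with
    | zero =>
      intro _
      exact ⟨fun _ => hij, fun h => absurd h (by omega)⟩
    | succ t ih =>
      intro ht
      obtain ⟨ih1, ih2⟩ := ih (by omega)
      constructor
      · intro h
        rw [P_succ, P_succ]
        apply Crossing.move_lt_move_of_not _ (ih1 (by omega))
        intro hm
        have := h3 t ⟨by omega, hm⟩
        omega
      · intro h
        rw [P_succ, P_succ]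
        rcases Nat.lt_or_eq_of_le (Nat.lt_succ_iff.1 h) with h' | h'
        · apply Crossing.move_lt_move_of_not _ (ih2 h')
          intro hm
          have := h3 t ⟨by omega, hm.2, hm.1⟩
          omega
        · subst h'
          exact Crossing.move_lt_move_of_has h2.1 h2.2 (ih1 le_rfl)
  exact (key _ le_rfl).2 h1

theorem P_size {i : ℕ} (hs : 0 < A.size) (hi : i < n) : A.P A.size i = n - 1 - i := by
  have h1 : ∀ i < n, A.P A.size i + i ≤ n - 1 := by
    intro i
    induction i with
    | zero => intro h; have := A.P_lt hs h A.size; omega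
    | succ i ih =>
      intro h
      have h1 := ih (by omega)
      have h2 := A.order_size (Nat.lt_succ_self i) h
      have h3 : A.P A.size (i+1) < A.P A.size i := h2
      omega
  have h2 : ∀ k, ∀ i < n, i + k = n - 1 → k ≤ A.P A.size i := by
    intro k
    induction k with
    | zero => intro i _ _; exact Nat.zero_le _
    | succ k ih =>
      intro i hi h
      have h1 := ih (i+1) (by omega) (by omega)
      have h2 := A.order_size (Nat.lt_succ_self i) (show i + 1 < n by omega)
      have h3 : A.P A.size (i+1) < A.P A.size i := h2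
      omega
  have a := h1 i hi
  have b := h2 (n - 1 - i) i hi (by omega)
  omega

theorem P_add {i : ℕ} (hs : 0 < A.size) (hi : i < n) (t : ℕ) :
    A.P (t + A.size) i = n - 1 - A.P t i := by
  induction t with
  | zero => rw [Nat.zero_add, P_zero, A.P_size hs hi]
  | succ t ih =>
    have : t + 1 + A.size = (t + A.size) + 1 := by ring
    rw [this, P_succ, ih, A.unroll_add hs, P_succ]
    exact Crossing.flip_move (A.unroll_valid hs t).1 (A.unroll_valid hs t).2 (A.P_lt hs hi t)

theorem meet_add {i j : ℕ} (hs : 0 < A.size) (hi : i < n) (hj : j < n) (t : ℕ) :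
    A.Meet (t + A.size) i j ↔ A.Meet t i j := by
  unfold Meet
  rw [A.P_add hs hi, A.P_add hs hj, A.unroll_add hs,
    Crossing.flip_has (A.unroll_valid hs t).1 (A.unroll_valid hs t).2 (A.P_lt hs hi t),
    Crossing.flip_has (A.unroll_valid hs t).1 (A.unroll_valid hs t).2 (A.P_lt hs hj t)]

theorem meet_mod {i j : ℕ} (hs : 0 < A.size) (hi : i < n) (hj : j < n) (t : ℕ) :
    A.Meet t i j ↔ A.Meet (t % A.size) i j := by
  induction t using Nat.strong_induction_on with
  | _ t ih =>
    by_cases h : t < A.size
    · rw [Nat.mod_eq_of_lt h]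
    · obtain ⟨u, rfl⟩ : ∃ u, t = u + A.size := ⟨t - A.size, by omega⟩
      rw [A.meet_add hs hi hj, Nat.add_mod_right]
      exact ih u (by omega)

theorem meet_unique {i j : ℕ} (hs : 0 < A.size) (hi : i < n) (hj : j < n) (hij : i ≠ j)
    {t s : ℕ} (h1 : A.Meet t i j) (h2 : A.Meet s i j) : t % A.size = s % A.size := by
  rw [A.meet_mod hs hi hj] at h1 h2
  obtain ⟨u, _, hu⟩ := A.exists_meet hi hj hij
  rw [hu _ ⟨Nat.mod_lt _ hs, h1⟩, hu _ ⟨Nat.mod_lt _ hs, h2⟩]

theorem not_concurrent' (hs : 0 < A.size) (t : ℕ) : ∃ i < n, ¬ (A.unroll t).Has (A.P t i) := by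
  have key : ∀ t, (∃ i < n, ¬ (A.unroll t).Has (A.P t i)) ↔
      (∃ i < n, ¬ (A.unroll (t % A.size)).Has (A.P (t % A.size) i)) := by
    intro t
    induction t using Nat.strong_induction_on with
    | _ t ih =>
      by_cases h : t < A.size
      · rw [Nat.mod_eq_of_lt h]
      · obtain ⟨u, rfl⟩ : ∃ u, t = u + A.size := ⟨t - A.size, by omega⟩
        rw [Nat.add_mod_right, ← ih u (by omega)]
        apply exists_congr
        intro i
        apply and_congr_right
        intro hi
        rw [A.P_add hs hi, A.unroll_add hs, Crossing.flip_has (A.unroll_valid hs u).1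
          (A.unroll_valid hs u).2 (A.P_lt hs hi u)]
  rw [key]
  have hm : t % A.size < A.size := Nat.mod_lt _ hs
  obtain ⟨i, hi, h⟩ := A.not_concurrent _ hm
  refine ⟨i, hi, ?_⟩
  rwa [A.unroll_of_lt hm, A.P_of_le hm.le]

/-- no digons: between two consecutive interruptions of a gap some crossing touches the gap -/
theorem exists_touch (hs : 0 < A.size) {t s g : ℕ} (hts : t < s)
    (ht : (A.unroll t).Cuts g) (hs' : (A.unroll s).Cuts g)
    (hno : ∀ u, t < u → u < s → ¬ (A.unroll u).Cuts g) :
    ∃ u, t < u ∧ u < s ∧ (A.unroll u).Touches g := by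
  by_contra hcon
  push Not at hcon
  have hg1 : 1 ≤ g := by unfold Crossing.Cuts at ht; omega
  have hgn : g < n := by
    have := (A.unroll_valid hs t).2
    unfold Crossing.Cuts at ht; omega
  -- the wires x, y next to the gap behind t
  obtain ⟨x, hx, hPx⟩ := A.P_surj hs (t+1) (show g - 1 < n by omega)
  obtain ⟨y, hy, hPy⟩ := A.P_surj hs (t+1) hgn
  have hxy : x ≠ y := by rintro rfl; omega
  have hx1 : (A.unroll t).Has (A.P t x) := by
    rw [← Crossing.has_move, ← P_succ, hPx]
    unfold Crossing.Cuts Crossing.Has at *; omega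
  have hy1 : (A.unroll t).Has (A.P t y) := by
    rw [← Crossing.has_move, ← P_succ, hPy]
    unfold Crossing.Cuts Crossing.Has at *; omega
  have hmt : A.Meet t x y := ⟨hx1, hy1⟩
  have stay : ∀ u, t < u → u ≤ s → A.P u x = g - 1 ∧ A.P u y = g := by
    intro u
    induction u with
    | zero => intro h; omega
    | succ u ih =>
      intro h1 h2
      rcases Nat.lt_or_eq_of_le (Nat.lt_succ_iff.1 h1) with h | h
      · obtain ⟨a, b⟩ := ih h (by omega)
        have c1 := hno u h (by omega)
        have c2 := hcon u h (by omega)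
        unfold Crossing.Cuts at c1
        unfold Crossing.Touches at c2
        rw [P_succ, P_succ, a, b, Crossing.move_of_not_has, Crossing.move_of_not_has]
        · exact ⟨rfl, rfl⟩
        · unfold Crossing.Has; omega
        · unfold Crossing.Has; omega
      · subst h; exact ⟨hPx, hPy⟩
  have hms : A.Meet s x y := by
    obtain ⟨a, b⟩ := stay s hts le_rfl
    unfold Meet
    rw [a, b]
    unfold Crossing.Cuts Crossing.Has at *; omega
  have hmod := A.meet_unique hs hx hy hxy hmt hms
  have hge : t + A.size ≤ s := by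
    have := (Nat.modEq_iff_dvd' hts.le).1 (show t ≡ s [MOD A.size] from hmod)
    have := Nat.le_of_dvd (by omega) this
    omega
  -- no crossing strictly between t and t + size contains x
  obtain ⟨z, hz, hnz⟩ := A.not_concurrent' hs t
  have hzx : z ≠ x := by rintro rfl; exact hnz hx1
  obtain ⟨w, ⟨hw, hmw⟩, _⟩ := A.exists_meet hx hz hzx.symm
  -- representative of w in [t, t+size)
  have hrep : ∃ u, t ≤ u ∧ u < t + A.size ∧ u % A.size = w := by
    have h1 : t % A.size < A.size := Nat.mod_lt _ hs
    by_cases h : t % A.size ≤ w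
    · refine ⟨t + (w - t % A.size), by omega, by omega, ?_⟩
      have : t + (w - t % A.size) = A.size * (t / A.size) + w := by
        have := Nat.div_add_mod t A.size; omega
      rw [this, Nat.mul_add_mod, Nat.mod_eq_of_lt hw]
    · refine ⟨t + (w + A.size - t % A.size), by omega, by omega, ?_⟩
      have : t + (w + A.size - t % A.size) = A.size * (t / A.size + 1) + w := by
        have := Nat.div_add_mod t A.size
        rw [Nat.mul_add, Nat.mul_one]; omega
      rw [this, Nat.mul_add_mod, Nat.mod_eq_of_lt hw]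
  obtain ⟨u, hu1, hu2, hu3⟩ := hrep
  have hmu : A.Meet u x z := by
    rw [A.meet_mod hs hx hz, hu3]; exact hmw
  rcases Nat.lt_or_eq_of_le hu1 with h | h
  · have a := (stay u h (by omega)).1
    have c1 := hno u h (by omega)
    have c2 := hcon u h (by omega)
    have := hmu.1
    rw [a] at this
    unfold Crossing.Cuts at c1
    unfold Crossing.Touches at c2
    unfold Crossing.Has at this
    omega
  · subst h
    exact hnz hmu.2

end Arrangement

end Pool.Agent.Lib.MP_91c05b_co
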