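import Pool.Agent.Lib.MP_91c05b_co.Words

/-! Building blocks of the extremal words: two kinds of rounds of disjoint crossings (a wiring
diagram of a cyclic arrangement) and passes of a single wire through all wires of this diagram. -/

namespace Pool.Agent.Lib.MP_91c05b_co

/-- round of crossings in the gaps `b + 2, b + 4, …` -/
def rE (M b : ℕ) : List ℕ := List.range' (b + 2) (M - 1) 2

/-- round of crossings in the gaps `b + 1, b + 3, …` -/
def rO (M b : ℕ) : List ℕ := List.range' (b + 1) M 2

/-- the wire in position `j` passes `2 M` wires -/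
def rC (M j : ℕ) : List ℕ := List.range' (j + 1) (2 * M) 1

theorem sc_move {a : ℕ} (ha : 1 ≤ a) (p : ℕ) :
    (sc a).move p = if p + 1 = a then a else if p = a then a - 1 else p := by
  unfold sc Crossing.move
  simp only
  split_ifs <;> omega

theorem run_range'_two (a m : ℕ) (ha : 1 ≤ a) (p : ℕ) :
    run (List.range' a m 2) p = if a ≤ p + 1 ∧ p + 1 < a + 2 * m then
      (if (p + 1 - a) % 2 = 0 then p + 1 else p - 1) else p := by
  induction m generalizing a p with
  | zero =>
    rw [if_neg (by omega)]; rfl
  | succ m ih =>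
    rw [List.range'_succ, run_cons, ih (a + 2) (by omega), sc_move ha]
    split_ifs <;> omega

theorem run_range'_one (s m p : ℕ) :
    run (List.range' (s + 1) m 1) p = if p = s then s + m else
      if s < p ∧ p ≤ s + m then p - 1 else p := by
  induction m generalizing s p with
  | zero =>
    simp only [List.range'_zero, run_nil]
    split_ifs <;> omega
  | succ m ih =>
    rw [List.range'_succ, run_cons, ih (s + 1), sc_move (by omega)]
    split_ifs <;> omega

theorem run_rE {M b : ℕ} (p : ℕ) : run (rE M b) p =
    if b + 1 ≤ p ∧ p + 1 < b + 2 * M then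
      (if (p - b) % 2 = 1 then p + 1 else p - 1) else p := by
  rw [rE, run_range'_two _ _ (by omega)]
  split_ifs <;> omega

theorem run_rO {M b : ℕ} (p : ℕ) : run (rO M b) p =
    if b ≤ p ∧ p < b + 2 * M then
      (if (p - b) % 2 = 0 then p + 1 else p - 1) else p := by
  rw [rO, run_range'_two _ _ (by omega)]
  split_ifs <;> omega

theorem run_rC {M j : ℕ} (p : ℕ) : run (rC M j) p = if p = j then j + 2 * M else
      if j < p ∧ p ≤ j + 2 * M then p - 1 else p := run_range'_one _ _ _

/-- zigzag function -/
def fold (M c : ℕ) : ℕ := if c % (4 * M) < 2 * M then c % (4 * M) else 4 * M - 1 - c % (4 * M)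

theorem mod_succ {K : ℕ} (hK : 1 < K) (c : ℕ) :
    (c + 1) % K = if c % K + 1 = K then 0 else c % K + 1 := by
  have h1 := Nat.mod_lt c (show 0 < K by omega)
  rw [Nat.add_mod, Nat.mod_eq_of_lt hK]
  split_ifs with h
  · rw [h, Nat.mod_self]
  · exact Nat.mod_eq_of_lt (by omega)

theorem mod_parity (M c : ℕ) : c % (4 * M) % 2 = c % 2 :=
  Nat.mod_mod_of_dvd c ⟨2 * M, by ring⟩

theorem fold_lt {M : ℕ} (hM : 1 ≤ M) (c : ℕ) : fold M c < 2 * M := by
  unfold fold
  have h1 := Nat.mod_lt c (show 0 < 4 * M by omega)
  split_ifs <;> omega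

theorem run_rE_fold {M b c : ℕ} (hM : 1 ≤ M) (hc : c % 2 = 1) :
    run (rE M b) (b + fold M c) = b + fold M (c + 1) := by
  have h1 := Nat.mod_lt c (show 0 < 4 * M by omega)
  have h2 := mod_parity M c
  have h3 := mod_succ (show 1 < 4 * M by omega) c
  rw [run_rE]
  unfold fold
  rw [h3]
  generalize c % (4 * M) = r at *
  split_ifs <;> omega

theorem run_rO_fold {M b c : ℕ} (hM : 1 ≤ M) (hc : c % 2 = 0) :
    run (rO M b) (b + fold M c) = b + fold M (c + 1) := by
  have h1 := Nat.mod_lt c (show 0 < 4 * M by omega)
  have h2 := mod_parity M c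
  have h3 := mod_succ (show 1 < 4 * M by omega) c
  rw [run_rO]
  unfold fold
  rw [h3]
  generalize c % (4 * M) = r at *
  split_ifs <;> omega

theorem run_rC_mid {M j x : ℕ} (hx : x < 2 * M) :
    run (rC M j) (j + 1 + x) = j + x := by
  rw [run_rC]; split_ifs <;> omega

theorem exists_fold {M q : ℕ} (hq : q < 2 * M) :
    ∃ c, c % 2 = 1 ∧ fold M c = q ∧ fold M (c + 2 * M) = 2 * M - 1 - q := by
  rcases Nat.mod_two_eq_zero_or_one q with h | h
  · refine ⟨4 * M - 1 - q, by omega, ?_, ?_⟩
    · unfold fold
      rw [Nat.mod_eq_of_lt (by omega)]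
      split_ifs <;> omega
    · unfold fold
      have : 4 * M - 1 - q + 2 * M = (2 * M - 1 - q) + 4 * M := by omega
      rw [this, Nat.add_mod_right, Nat.mod_eq_of_lt (by omega), if_pos (by omega)]
  · refine ⟨q, h, ?_, ?_⟩
    · unfold fold
      rw [Nat.mod_eq_of_lt (by omega), if_pos hq]
    · unfold fold
      rw [Nat.mod_eq_of_lt (by omega), if_neg (by omega)]
      omega

/-- one period of the pentagon word -/
def rB (M j : ℕ) : List ℕ := rE M (j + 1) ++ (rC M j ++ rO M j)

/-- periods `j - 1, …, 0` of the pentagon word -/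
def Pw (M : ℕ) : ℕ → List ℕ
  | 0 => []
  | j + 1 => rB M j ++ Pw M j

theorem run_Pw_high {M j p : ℕ} (hp : j + 2 * M ≤ p) : run (Pw M j) p = p := by
  induction j generalizing p with
  | zero => rfl
  | succ j ih =>
    have : run (rB M j) p = p := by
      rw [rB, run_append, run_append, run_rE, if_neg (by omega), run_rC, if_neg (by omega),
        if_neg (by omega), run_rO, if_neg (by omega)]
    rw [Pw, run_append, this]
    exact ih (by omega)

theorem run_Pw_low {M j p : ℕ} (hp : p < j) : run (Pw M j) p = p + 2 * M := by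
  induction j generalizing p with
  | zero => omega
  | succ j ih =>
    rcases Nat.lt_or_eq_of_le (Nat.lt_succ_iff.1 hp) with h | h
    · have : run (rB M j) p = p := by
        rw [rB, run_append, run_append, run_rE, if_neg (by omega), run_rC, if_neg (by omega),
          if_neg (by omega), run_rO, if_neg (by omega)]
      rw [Pw, run_append, this]
      exact ih h
    · subst h
      have : run (rB M p) p = p + 2 * M := by
        rw [rB, run_append, run_append, run_rE, if_neg (by omega), run_rC, if_pos rfl,
          run_rO, if_neg (by omega)]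
      rw [Pw, run_append, this]
      exact run_Pw_high le_rfl

theorem run_rB_fold {M j c : ℕ} (hM : 1 ≤ M) (hc : c % 2 = 1) :
    run (rB M j) (j + 1 + fold M c) = j + fold M (c + 2) := by
  rw [rB, run_append, run_append, run_rE_fold hM hc, run_rC_mid (fold_lt hM _),
    run_rO_fold hM (by omega)]

theorem run_Pw_mid {M j c : ℕ} (hM : 1 ≤ M) (hc : c % 2 = 1) :
    run (Pw M j) (j + fold M c) = fold M (c + 2 * j) := by
  induction j generalizing c with
  | zero => simp [Pw, run_nil]
  | succ j ih =>
    rw [Pw, run_append, run_rB_fold hM hc, ih (by omega)]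
    congr 1; ring

theorem Pw_length {M : ℕ} (hM : 1 ≤ M) (j : ℕ) : (Pw M j).length + j = 4 * M * j := by
  induction j with
  | zero => rfl
  | succ j ih =>
    rw [Pw, rB, rE, rO, rC]
    simp only [List.length_append, List.length_range']
    have : 4 * M * (j + 1) = 4 * M * j + 4 * M := by ring
    omega

theorem mem_rE {M b g : ℕ} : g ∈ rE M b ↔ b + 2 ≤ g ∧ g < b + 2 * M ∧ (g - b) % 2 = 0 := by
  rw [rE, List.mem_range']
  constructor
  · rintro ⟨i, hi, rfl⟩; omega
  · rintro ⟨h1, h2, h3⟩; exact ⟨(g - b - 2) / 2, by omega, by omega⟩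

theorem mem_rO {M b g : ℕ} : g ∈ rO M b ↔ b + 1 ≤ g ∧ g < b + 2 * M ∧ (g - b) % 2 = 1 := by
  rw [rO, List.mem_range']
  constructor
  · rintro ⟨i, hi, rfl⟩; omega
  · rintro ⟨h1, h2, h3⟩; exact ⟨(g - b - 1) / 2, by omega, by omega⟩

theorem mem_rC {M j g : ℕ} : g ∈ rC M j ↔ j + 1 ≤ g ∧ g ≤ j + 2 * M := by
  rw [rC, List.mem_range']
  constructor
  · rintro ⟨i, hi, rfl⟩; omega
  · rintro ⟨h1, h2⟩; exact ⟨g - (j + 1), by omega, by omega⟩

theorem mem_Pw {M j g : ℕ} (hg : g ∈ Pw M j) : 1 ≤ g ∧ g < j + 2 * M := by
  induction j with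
  | zero => simp [Pw] at hg
  | succ j ih =>
    rw [Pw, rB] at hg
    simp only [List.mem_append, mem_rE, mem_rC, mem_rO] at hg
    rcases hg with (h | h | h) | h
    · omega
    · omega
    · omega
    · have := ih h; omega

theorem two_mul_choose (n : ℕ) : 2 * n.choose 2 + n = n * n := by
  induction n with
  | zero => rfl
  | succ n ih =>
    rw [Nat.choose_succ_succ' n 1, Nat.choose_one_right]
    nlinarith

theorem isRev_pent {M : ℕ} (hM : 1 ≤ M) {w : List ℕ} (h : IsRev M w) :
    IsRev (3 * M) (w ++ Pw M M) := by
  refine ⟨?_, ?_, ?_⟩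
  · intro g hg
    rw [List.mem_append] at hg
    rcases hg with hg | hg
    · have := h.1 g hg; omega
    · have := mem_Pw hg; omega
  · rw [List.length_append]
    have h1 := h.2.1
    have h2 := Pw_length hM M
    have h3 := two_mul_choose M
    have h4 := two_mul_choose (3 * M)
    nlinarith
  · intro i hi
    rw [run_append]
    by_cases hiM : i < M
    · rw [h.2.2 i hiM, run_Pw_low (by omega)]; omega
    · have h1 : run w i = i := by
        have : ∀ (u : List ℕ), (∀ g ∈ u, 1 ≤ g ∧ g < M) → run u i = i := by
          intro u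
          induction u with
          | nil => intro _; rfl
          | cons g u ih =>
            intro hu
            have hg := hu g (by simp)
            rw [run_cons, sc_move hg.1, if_neg (by omega), if_neg (by omega)]
            exact ih (fun g hg => hu g (by simp [hg]))
        exact this w h.1
      obtain ⟨q, rfl⟩ : ∃ q, i = M + q := ⟨i - M, by omega⟩
      obtain ⟨c, hc1, hc2, hc3⟩ := exists_fold (M := M) (q := q) (by omega)
      rw [h1, ← hc2, run_Pw_mid hM hc1, hc3]
      rw [hc2]; omega

/-- word in which the highest of `n + 1` wires passes all others -/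
def dn : ℕ → List ℕ
  | 0 => []
  | n + 1 => (n + 1) :: dn n

theorem mem_dn {n g : ℕ} (h : g ∈ dn n) : 1 ≤ g ∧ g ≤ n := by
  induction n with
  | zero => simp [dn] at h
  | succ n ih =>
    rw [dn, List.mem_cons] at h
    rcases h with h | h
    · omega
    · have := ih h; omega

theorem length_dn (n : ℕ) : (dn n).length = n := by
  induction n with
  | zero => rfl
  | succ n ih => rw [dn, List.length_cons, ih]

theorem run_dn (n p : ℕ) : run (dn n) p = if p = n then 0 else if p < n then p + 1 else p := by
  induction n generalizing p with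
  | zero => rw [dn, run_nil]; split_ifs <;> omega
  | succ n ih =>
    rw [dn, run_cons, ih, sc_move (by omega)]
    split_ifs <;> omega

theorem isRev_add_one {n : ℕ} {w : List ℕ} (h : IsRev n w) : IsRev (n + 1) (w ++ dn n) := by
  refine ⟨?_, ?_, ?_⟩
  · intro g hg
    rw [List.mem_append] at hg
    rcases hg with hg | hg
    · have := h.1 g hg; omega
    · have := mem_dn hg; omega
  · rw [List.length_append, length_dn, h.2.1, Nat.choose_succ_succ' n 1, Nat.choose_one_right]
    ring
  · intro i hi
    rw [run_append]
    by_cases hin : i < n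
    · rw [h.2.2 i hin, run_dn]
      split_ifs <;> omega
    · have h1 : run w i = i := by
        have : ∀ (u : List ℕ), (∀ g ∈ u, 1 ≤ g ∧ g < n) → run u i = i := by
          intro u
          induction u with
          | nil => intro _; rfl
          | cons g u ih =>
            intro hu
            have hg := hu g (by simp)
            rw [run_cons, sc_move hg.1, if_neg (by omega), if_neg (by omega)]
            exact ih (fun g hg => hu g (by simp [hg]))
        exact this w h.1
      rw [h1, run_dn]
      split_ifs <;> omega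

theorem isRev_zero : IsRev 0 [] := ⟨by simp, rfl, by omega⟩

theorem extend_word {k m n : ℕ} (hmn : m ≤ n) {w : List ℕ} (h : IsRev m w) :
    ∃ w', IsRev n w' ∧ bc k w ≤ bc k w' := by
  induction n, hmn using Nat.le_induction with
  | base => exact ⟨w, h, le_rfl⟩
  | succ n _ ih =>
    obtain ⟨w', h1, h2⟩ := ih
    exact ⟨w' ++ dn n, isRev_add_one h1, h2.trans ((Nat.le_add_right _ _).trans (bc_append k _ _))⟩

/-- one period of the hexagon word -/
def rD (M i : ℕ) : List ℕ := rE M (2 * i + 2) ++ (rC M (2 * i + 1) ++ (rO M (2 * i + 1) ++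
  rC M (2 * i)))

/-- periods `i - 1, …, 0` of the hexagon word -/
def Qw (M : ℕ) : ℕ → List ℕ
  | 0 => []
  | i + 1 => rD M i ++ Qw M i

theorem run_rD (M i p : ℕ) : run (rD M i) p =
    run (rC M (2 * i)) (run (rO M (2 * i + 1)) (run (rC M (2 * i + 1))
      (run (rE M (2 * i + 2)) p))) := by
  rw [rD, run_append, run_append, run_append]

theorem run_Qw_high {M i p : ℕ} (hp : 2 * i + 2 * M ≤ p) : run (Qw M i) p = p := by
  induction i generalizing p with
  | zero => rfl
  | succ i ih =>
    have a1 : run (rE M (2 * i + 2)) p = p := by rw [run_rE, if_neg (by omega)]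
    have a2 : run (rC M (2 * i + 1)) p = p := by
      rw [run_rC, if_neg (by omega), if_neg (by omega)]
    have a3 : run (rO M (2 * i + 1)) p = p := by rw [run_rO, if_neg (by omega)]
    have a4 : run (rC M (2 * i)) p = p := by
      rw [run_rC, if_neg (by omega), if_neg (by omega)]
    rw [Qw, run_append, run_rD, a1, a2, a3, a4]
    exact ih (by omega)

theorem run_Qw_low {M i p : ℕ} (hp : p < 2 * i) : run (Qw M i) p = p + 2 * M := by
  induction i generalizing p with
  | zero => omega
  | succ i ih =>
    by_cases h : p < 2 * i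
    · have a1 : run (rE M (2 * i + 2)) p = p := by rw [run_rE, if_neg (by omega)]
      have a2 : run (rC M (2 * i + 1)) p = p := by
        rw [run_rC, if_neg (by omega), if_neg (by omega)]
      have a3 : run (rO M (2 * i + 1)) p = p := by rw [run_rO, if_neg (by omega)]
      have a4 : run (rC M (2 * i)) p = p := by
        rw [run_rC, if_neg (by omega), if_neg (by omega)]
      rw [Qw, run_append, run_rD, a1, a2, a3, a4]
      exact ih h
    · have : run (rD M i) p = p + 2 * M := by
        have a1 : run (rE M (2 * i + 2)) p = p := by rw [run_rE, if_neg (by omega)]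
        rcases Nat.lt_or_ge p (2 * i + 1) with h' | h'
        · have hp' : p = 2 * i := by omega
          have a2 : run (rC M (2 * i + 1)) p = p := by
            rw [run_rC, if_neg (by omega), if_neg (by omega)]
          have a3 : run (rO M (2 * i + 1)) p = p := by rw [run_rO, if_neg (by omega)]
          have a4 : run (rC M (2 * i)) p = p + 2 * M := by
            rw [run_rC, if_pos hp', hp']
          rw [run_rD, a1, a2, a3, a4]
        · have hp' : p = 2 * i + 1 := by omega
          have a2 : run (rC M (2 * i + 1)) p = p + 2 * M := by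
            rw [run_rC, if_pos hp', hp']
          have a3 : run (rO M (2 * i + 1)) (p + 2 * M) = p + 2 * M := by
            rw [run_rO, if_neg (by omega)]
          have a4 : run (rC M (2 * i)) (p + 2 * M) = p + 2 * M := by
            rw [run_rC, if_neg (by omega), if_neg (by omega)]
          rw [run_rD, a1, a2, a3, a4]
      rw [Qw, run_append, this]
      exact run_Qw_high (by omega)

theorem run_rD_fold {M i c : ℕ} (hM : 1 ≤ M) (hc : c % 2 = 1) :
    run (rD M i) (2 * i + 2 + fold M c) = 2 * i + fold M (c + 2) := by
  have e : 2 * i + 2 + fold M (c + 1) = (2 * i + 1) + 1 + fold M (c + 1) := by ring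
  rw [run_rD, run_rE_fold hM hc, e, run_rC_mid (fold_lt hM _), run_rO_fold hM (by omega),
    run_rC_mid (fold_lt hM _)]

theorem run_Qw_mid {M i c : ℕ} (hM : 1 ≤ M) (hc : c % 2 = 1) :
    run (Qw M i) (2 * i + fold M c) = fold M (c + 2 * i) := by
  induction i generalizing c with
  | zero => simp [Qw, run_nil]
  | succ i ih =>
    have e : 2 * (i + 1) + fold M c = 2 * i + 2 + fold M c := by ring
    rw [Qw, run_append, e, run_rD_fold hM hc, ih (by omega)]
    congr 1; ring

theorem Qw_length {M : ℕ} (hM : 1 ≤ M) (i : ℕ) : (Qw M i).length + i = 6 * M * i := by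
  induction i with
  | zero => rfl
  | succ i ih =>
    rw [Qw, rD, rE, rO, rC, rC]
    simp only [List.length_append, List.length_range']
    have : 6 * M * (i + 1) = 6 * M * i + 6 * M := by ring
    omega

theorem mem_Qw {M i g : ℕ} (hg : g ∈ Qw M i) : 1 ≤ g ∧ g < 2 * i + 2 * M := by
  induction i with
  | zero => simp [Qw] at hg
  | succ i ih =>
    rw [Qw, rD] at hg
    simp only [List.mem_append, mem_rE, mem_rC, mem_rO] at hg
    rcases hg with (h | h | h | h) | h
    · omega
    · omega
    · omega
    · omega
    · have := ih h; omega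

theorem isRev_hex {M : ℕ} (hM : 1 ≤ M) {w : List ℕ} (h : IsRev (2 * M) w) :
    IsRev (4 * M) (w ++ Qw M M) := by
  refine ⟨?_, ?_, ?_⟩
  · intro g hg
    rw [List.mem_append] at hg
    rcases hg with hg | hg
    · have := h.1 g hg; omega
    · have := mem_Qw hg; omega
  · rw [List.length_append]
    have h1 := h.2.1
    have h2 := Qw_length hM M
    have h3 := two_mul_choose (2 * M)
    have h4 := two_mul_choose (4 * M)
    nlinarith
  · intro i hi
    rw [run_append]
    by_cases hiM : i < 2 * M
    · rw [h.2.2 i hiM, run_Qw_low (by omega)]; omega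
    · have h1 : run w i = i := by
        have : ∀ (u : List ℕ), (∀ g ∈ u, 1 ≤ g ∧ g < 2 * M) → run u i = i := by
          intro u
          induction u with
          | nil => intro _; rfl
          | cons g u ih =>
            intro hu
            have hg := hu g (by simp)
            rw [run_cons, sc_move hg.1, if_neg (by omega), if_neg (by omega)]
            exact ih (fun g hg => hu g (by simp [hg]))
        exact this w h.1
      obtain ⟨q, rfl⟩ : ∃ q, i = 2 * M + q := ⟨i - 2 * M, by omega⟩
      obtain ⟨c, hc1, hc2, hc3⟩ := exists_fold (M := M) (q := q) (by omega)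
      rw [h1, ← hc2, run_Qw_mid hM hc1, hc3]
      rw [hc2]; omega

end Pool.Agent.Lib.MP_91c05b_co
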