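import Pool.Agent.Lib.MP_91c05b_co.Build

/-! Counting pentagons and hexagons in the extremal words. -/

namespace Pool.Agent.Lib.MP_91c05b_co

open Finset

/-- number of cells that begin in `u` and are `k`-sided in `u ++ v` -/
def bcIn (k : ℕ) (v : List ℕ) : List ℕ → ℕ
  | [] => 0
  | g :: u => (if cl g (u ++ v) = some k then 1 else 0) + bcIn k v u

theorem bc_append_eq (k : ℕ) (u v : List ℕ) : bc k (u ++ v) = bcIn k v u + bc k v := by
  induction u with
  | nil => simp [bcIn]
  | cons g u ih => rw [List.cons_append]; simp only [bc, bcIn]; rw [ih]; ring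

theorem bcIn_append (k : ℕ) (u₁ u₂ v : List ℕ) :
    bcIn k v (u₁ ++ u₂) = bcIn k (u₂ ++ v) u₁ + bcIn k v u₂ := by
  induction u₁ with
  | nil => simp [bcIn]
  | cons g u ih =>
    rw [List.cons_append]; simp only [bcIn]; rw [ih, List.append_assoc]; ring

theorem bcIn_range' (k s m step : ℕ) (v : List ℕ) :
    bcIn k v (List.range' s m step) = ((range m).filter (fun i =>
      cl (s + step * i) (List.range' (s + step * (i + 1)) (m - 1 - i) step ++ v) = some k)).card := by
  induction m generalizing s with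
  | zero => simp [bcIn]
  | succ m ih =>
    rw [List.range'_succ, card_filter, sum_range_succ']
    simp only [bcIn]
    rw [ih, card_filter, add_comm]
    congr 1
    · apply sum_congr rfl
      intro i _
      have e1 : s + step + step * i = s + step * (i + 1) := by ring
      have e2 : s + step + step * (i + 1) = s + step * (i + 1 + 1) := by ring
      have e3 : m + 1 - 1 - (i + 1) = m - 1 - i := by omega
      rw [e1, e2, e3]
    · simp

theorem bcIn_range'_ge (k s m step : ℕ) (v : List ℕ) (N : ℕ) (f : ℕ → ℕ)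
    (hf : ∀ a b, f a = f b → a = b) (hm : ∀ a < N, f a < m)
    (h : ∀ a < N, cl (s + step * f a)
      (List.range' (s + step * (f a + 1)) (m - 1 - f a) step ++ v) = some k) :
    N ≤ bcIn k v (List.range' s m step) := by
  rw [bcIn_range']
  have : (range N).image f ⊆ (range m).filter (fun i =>
      cl (s + step * i) (List.range' (s + step * (i + 1)) (m - 1 - i) step ++ v) = some k) := by
    intro x hx
    rw [mem_image] at hx
    obtain ⟨a, ha, rfl⟩ := hx
    rw [mem_range] at ha
    rw [mem_filter, mem_range]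
    exact ⟨hm a ha, h a ha⟩
  have h2 := card_le_card this
  rwa [card_image_of_injective _ (fun a b hab => hf a b hab), card_range] at h2

theorem tc_nodup {g : ℕ} (hg : 1 ≤ g) {l : List ℕ} (hl : l.Nodup) :
    tc g l = (if g + 1 ∈ l then 1 else 0) + (if g - 1 ∈ l then 1 else 0) := by
  induction l with
  | nil => simp [tc]
  | cons x l ih =>
    rw [List.nodup_cons] at hl
    rw [tc_cons, ih hl.2]
    by_cases h1 : x = g + 1
    · subst h1
      have h2 : ¬ g - 1 = g + 1 := by omega
      simp [hl.1, h2]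
      omega
    · by_cases h2 : x + 1 = g
      · have h3 : x = g - 1 := by omega
        subst h3
        have h4 : ¬ g + 1 = g - 1 := by omega
        have h5 : g - 1 + 1 = g := by omega
        simp [hl.1, h4, h5]
      · have h3 : ¬ g + 1 = x := by omega
        have h4 : ¬ g - 1 = x := by omega
        simp [h1, h2, h3, h4]

theorem tc_rO {M b g : ℕ} (h : 1 ≤ g) (h1 : g + 1 ∈ rO M b) (h2 : g - 1 ∈ rO M b) :
    tc g (rO M b) = 2 := by
  rw [tc_nodup h (by unfold rO; exact List.nodup_range' 2), if_pos h1, if_pos h2]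

theorem tc_rE {M b g : ℕ} (h : 1 ≤ g) (h1 : g + 1 ∈ rE M b) (h2 : g - 1 ∈ rE M b) :
    tc g (rE M b) = 2 := by
  rw [tc_nodup h (by unfold rE; exact List.nodup_range' 2), if_pos h1, if_pos h2]

/-- rest of a pass: exactly one touching letter, the gap itself does not occur -/
theorem tc_tail_one {g r : ℕ} (hg : 1 ≤ g) (hr : 1 ≤ r) : tc g (List.range' (g + 1) r 1) = 1 := by
  rw [tc_nodup hg (List.nodup_range' 1), if_pos, if_neg]
  · rw [List.mem_range']; rintro ⟨i, _, hi⟩; omega
  · rw [List.mem_range']; exact ⟨0, by omega, by omega⟩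

theorem notMem_tail_one {g r : ℕ} : g ∉ List.range' (g + 1) r 1 := by
  rw [List.mem_range']; rintro ⟨i, _, hi⟩; omega

theorem tc_tail_two {g r : ℕ} : tc g (List.range' (g + 2) r 2) = 0 := by
  unfold tc
  rw [List.countP_eq_zero]
  intro x hx
  rw [List.mem_range'] at hx
  obtain ⟨i, _, rfl⟩ := hx
  simp only [decide_eq_true_eq]
  omega

theorem notMem_tail_two {g r : ℕ} : g ∉ List.range' (g + 2) r 2 := by
  rw [List.mem_range']; rintro ⟨i, _, hi⟩; omega

/-- a gap of the right parity is closed by a round without touching -/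
theorem cl_range'_two {s m h : ℕ} (hm : h ∈ List.range' s m 2) (v : List ℕ) :
    cl h (List.range' s m 2 ++ v) = some 2 := by
  induction m generalizing s with
  | zero => simp at hm
  | succ m ih =>
    rw [List.range'_succ, List.cons_append]
    simp only [cl]
    by_cases h1 : s = h
    · rw [if_pos h1]
    · rw [if_neg h1]
      rw [List.range'_succ, List.mem_cons] at hm
      rcases hm with hm | hm
      · exact absurd hm.symm h1
      · have hm' := hm
        rw [List.mem_range'] at hm'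
        obtain ⟨i, _, hi⟩ := hm'
        rw [if_neg (by omega)]
        exact ih hm

/-- a pass closes the gap after one touching -/
theorem cl_range'_one {s m h : ℕ} (h1 : s < h) (h2 : h < s + m) (v : List ℕ) :
    cl h (List.range' s m 1 ++ v) = some 3 := by
  induction m generalizing s with
  | zero => omega
  | succ m ih =>
    rw [List.range'_succ, List.cons_append]
    simp only [cl]
    rw [if_neg (by omega)]
    by_cases h3 : s + 1 = h
    · rw [if_pos (Or.inr h3)]
      obtain ⟨m', rfl⟩ : ∃ m', m = m' + 1 := ⟨m - 1, by omega⟩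
      rw [List.range'_succ, List.cons_append, h3, cl_cons_self]
      rfl
    · rw [if_neg (by omega)]
      exact ih (by omega) (by omega)

theorem cl_rC {M j h : ℕ} (h1 : j + 1 < h) (h2 : h ≤ j + 2 * M) (v : List ℕ) :
    cl h (rC M j ++ v) = some 3 := cl_range'_one h1 (by omega) v

theorem cl_rE {M b h : ℕ} (hm : h ∈ rE M b) (v : List ℕ) : cl h (rE M b ++ v) = some 2 :=
  cl_range'_two hm v

/-- pentagons of one period -/
theorem pent_step {M : ℕ} (j : ℕ) :
    (M - 1) + (M - 2) + bc 5 (Pw M (j + 1)) ≤ bc 5 (Pw M (j + 2)) := by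
  have e : Pw M (j + 2) = rE M (j + 2) ++ (rC M (j + 1) ++ (rO M (j + 1) ++ Pw M (j + 1))) := by
    rw [Pw, rB, List.append_assoc, List.append_assoc]
  have e' : Pw M (j + 1) = rE M (j + 1) ++ (rC M j ++ (rO M j ++ Pw M j)) := by
    rw [Pw, rB, List.append_assoc, List.append_assoc]
  rw [e, bc_append_eq, bc_append_eq, bc_append_eq]
  have hC : M - 1 ≤ bcIn 5 (rO M (j + 1) ++ Pw M (j + 1)) (rC M (j + 1)) := by
    unfold rC
    apply bcIn_range'_ge 5 _ _ _ _ (M - 1) (fun a => 2 * a + 1) (by intro a b h; omega)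
      (by intro a ha; omega)
    intro a ha
    set h := j + 1 + 1 + 1 * (2 * a + 1) with hh
    have e1 : j + 1 + 1 + 1 * (2 * a + 1 + 1) = h + 1 := by omega
    rw [e1, cl_append_of_notMem notMem_tail_one, tc_tail_one (by omega) (by omega),
      cl_append_of_notMem (by rw [mem_rO]; omega), tc_rO (by omega) (by rw [mem_rO]; omega)
        (by rw [mem_rO]; omega), e', cl_rE (by rw [mem_rE]; omega)]
    rfl
  have hO : M - 2 ≤ bcIn 5 (Pw M (j + 1)) (rO M (j + 1)) := by
    unfold rO
    apply bcIn_range'_ge 5 _ _ _ _ (M - 2) (fun a => a + 1) (by intro a b h; omega)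
      (by intro a ha; omega)
    intro a ha
    set h := j + 1 + 1 + 2 * (a + 1) with hh
    have e1 : j + 1 + 1 + 2 * (a + 1 + 1) = h + 2 := by omega
    rw [e1, cl_append_of_notMem notMem_tail_two, tc_tail_two, e',
      cl_append_of_notMem (by rw [mem_rE]; omega), tc_rE (by omega) (by rw [mem_rE]; omega)
        (by rw [mem_rE]; omega), cl_rC (by omega) (by omega)]
    rfl
  omega

theorem pent_count {M : ℕ} (j : ℕ) : j * ((M - 1) + (M - 2)) ≤ bc 5 (Pw M (j + 1)) := by
  induction j with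
  | zero => simp
  | succ j ih =>
    have h1 := pent_step (M := M) j
    have h2 : Pw M (j + 1 + 1) = Pw M (j + 2) := rfl
    rw [Nat.succ_mul, h2]; omega

/-- hexagons of one period -/
theorem hex_step {M : ℕ} (i : ℕ) :
    (M - 1) + (M - 2) + bc 6 (Qw M (i + 1)) ≤ bc 6 (Qw M (i + 2)) := by
  have e : Qw M (i + 2) = rE M (2 * i + 4) ++ (rC M (2 * i + 3) ++ (rO M (2 * i + 3) ++
      (rC M (2 * i + 2) ++ Qw M (i + 1)))) := by
    rw [Qw, rD, List.append_assoc, List.append_assoc, List.append_assoc]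
    have e1 : 2 * (i + 1) + 2 = 2 * i + 4 := by ring
    have e2 : 2 * (i + 1) + 1 = 2 * i + 3 := by ring
    have e3 : 2 * (i + 1) = 2 * i + 2 := by ring
    rw [e1, e2, e3]
  have e' : Qw M (i + 1) = rE M (2 * i + 2) ++ (rC M (2 * i + 1) ++ (rO M (2 * i + 1) ++
      (rC M (2 * i) ++ Qw M i))) := by
    rw [Qw, rD, List.append_assoc, List.append_assoc, List.append_assoc]
  rw [e, bc_append_eq, bc_append_eq, bc_append_eq, bc_append_eq]
  have hC1 : M - 1 ≤ bcIn 6 (rO M (2 * i + 3) ++ (rC M (2 * i + 2) ++ Qw M (i + 1)))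
      (rC M (2 * i + 3)) := by
    conv_rhs => unfold rC
    apply bcIn_range'_ge 6 _ _ _ _ (M - 1) (fun a => 2 * a + 1) (by intro a b h; omega)
      (by intro a ha; omega)
    intro a ha
    set h := 2 * i + 3 + 1 + 1 * (2 * a + 1) with hh
    have e1 : 2 * i + 3 + 1 + 1 * (2 * a + 1 + 1) = h + 1 := by omega
    have e2 : List.range' (2 * i + 2 + 1) (2 * M) = rC M (2 * i + 2) := rfl
    rw [e1, cl_append_of_notMem notMem_tail_one, tc_tail_one (by omega) (by omega),
      cl_append_of_notMem (by rw [mem_rO]; omega), tc_rO (by omega) (by rw [mem_rO]; omega)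
        (by rw [mem_rO]; omega), e2, cl_rC (by omega) (by omega)]
    rfl
  have hC2 : M - 2 ≤ bcIn 6 (Qw M (i + 1)) (rC M (2 * i + 2)) := by
    conv_rhs => unfold rC
    apply bcIn_range'_ge 6 _ _ _ _ (M - 2) (fun a => 2 * a + 2) (by intro a b h; omega)
      (by intro a ha; omega)
    intro a ha
    set h := 2 * i + 2 + 1 + 1 * (2 * a + 2) with hh
    have e1 : 2 * i + 2 + 1 + 1 * (2 * a + 2 + 1) = h + 1 := by omega
    rw [e1, cl_append_of_notMem notMem_tail_one, tc_tail_one (by omega) (by omega), e',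
      cl_append_of_notMem (by rw [mem_rE]; omega), tc_rE (by omega) (by rw [mem_rE]; omega)
        (by rw [mem_rE]; omega), cl_rC (by omega) (by omega)]
    rfl
  omega

theorem hex_count {M : ℕ} (i : ℕ) : i * ((M - 1) + (M - 2)) ≤ bc 6 (Qw M (i + 1)) := by
  induction i with
  | zero => simp
  | succ i ih =>
    have h1 := hex_step (M := M) i
    have h2 : Qw M (i + 1 + 1) = Qw M (i + 2) := rfl
    rw [Nat.succ_mul, h2]; omega

/-- words with many pentagons -/
theorem exists_pent (n : ℕ) : ∃ w, IsRev n w ∧ (n : ℝ) ^ 2 / 4 - 4 * n ≤ bc 5 w := by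
  induction n using Nat.strong_induction_on with
  | _ n ih =>
    rcases Nat.lt_or_ge n 3 with hn | hn
    · obtain ⟨w, h1, h2⟩ := extend_word (k := 5) (Nat.zero_le n) isRev_zero
      refine ⟨w, h1, ?_⟩
      have h3 : (n : ℝ) ≤ 2 := by exact_mod_cast Nat.lt_succ_iff.1 hn
      have h4 : (0 : ℝ) ≤ n := Nat.cast_nonneg n
      have h5 : (0 : ℝ) ≤ bc 5 w := Nat.cast_nonneg _
      nlinarith
    · obtain ⟨M, s, hMs, hs⟩ : ∃ M s, n = 3 * M + s ∧ s < 3 :=
        ⟨n / 3, n % 3, by omega, by omega⟩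
      have hM : 1 ≤ M := by omega
      obtain ⟨w, hw1, hw2⟩ := ih M (by omega)
      obtain ⟨w', h1, h2⟩ := extend_word (k := 5) (show 3 * M ≤ n by omega) (isRev_pent hM hw1)
      refine ⟨w', h1, ?_⟩
      have h3 := bc_append 5 w (Pw M M)
      obtain ⟨m, rfl⟩ : ∃ m, M = m + 1 := ⟨M - 1, by omega⟩
      have h4 := pent_count (M := m + 1) m
      have h5 : bc 5 w + m * ((m + 1 - 1) + (m + 1 - 2)) ≤ bc 5 w' := by omega
      have h6 : (bc 5 w : ℝ) + (2 * (m:ℝ) ^ 2 - m) ≤ bc 5 w' := by
        have h7 : 2 * m ^ 2 ≤ m * ((m + 1 - 1) + (m + 1 - 2)) + m := by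
          rcases m with _ | m
          · simp
          · have : m + 1 + 1 - 1 + (m + 1 + 1 - 2) = 2 * m + 1 := by omega
            rw [this]; nlinarith
        have h8 : (bc 5 w + 2 * m ^ 2 : ℕ) ≤ bc 5 w' + m := by omega
        have h9 : ((bc 5 w + 2 * m ^ 2 : ℕ) : ℝ) ≤ ((bc 5 w' + m : ℕ) : ℝ) := by exact_mod_cast h8
        push_cast at h9
        linarith
      have hs0 : (0 : ℝ) ≤ s := Nat.cast_nonneg s
      have hs2 : (s : ℝ) ≤ 2 := by exact_mod_cast Nat.lt_succ_iff.1 hs
      have hm0 : (0 : ℝ) ≤ m := Nat.cast_nonneg m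
      subst hMs
      push_cast at hw2 ⊢
      nlinarith [mul_nonneg hm0 hs0, mul_nonneg hm0 (sub_nonneg.2 hs2),
        mul_nonneg hs0 (sub_nonneg.2 hs2)]

/-- words with many hexagons -/
theorem exists_hex (n : ℕ) : ∃ w, IsRev n w ∧ (n : ℝ) ^ 2 / 6 - 5 * n ≤ bc 6 w := by
  induction n using Nat.strong_induction_on with
  | _ n ih =>
    rcases Nat.lt_or_ge n 4 with hn | hn
    · obtain ⟨w, h1, h2⟩ := extend_word (k := 6) (Nat.zero_le n) isRev_zero
      refine ⟨w, h1, ?_⟩
      have h3 : (n : ℝ) ≤ 3 := by exact_mod_cast Nat.lt_succ_iff.1 hn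
      have h4 : (0 : ℝ) ≤ n := Nat.cast_nonneg n
      have h5 : (0 : ℝ) ≤ bc 6 w := Nat.cast_nonneg _
      nlinarith
    · obtain ⟨M, s, hMs, hs⟩ : ∃ M s, n = 4 * M + s ∧ s < 4 :=
        ⟨n / 4, n % 4, by omega, by omega⟩
      have hM : 1 ≤ M := by omega
      obtain ⟨w, hw1, hw2⟩ := ih (2 * M) (by omega)
      obtain ⟨w', h1, h2⟩ := extend_word (k := 6) (show 4 * M ≤ n by omega) (isRev_hex hM hw1)
      refine ⟨w', h1, ?_⟩
      have h3 := bc_append 6 w (Qw M M)
      obtain ⟨m, rfl⟩ : ∃ m, M = m + 1 := ⟨M - 1, by omega⟩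
      have h4 := hex_count (M := m + 1) m
      have h5 : bc 6 w + m * ((m + 1 - 1) + (m + 1 - 2)) ≤ bc 6 w' := by omega
      have h6 : (bc 6 w : ℝ) + (2 * (m:ℝ) ^ 2 - m) ≤ bc 6 w' := by
        have h7 : 2 * m ^ 2 ≤ m * ((m + 1 - 1) + (m + 1 - 2)) + m := by
          rcases m with _ | m
          · simp
          · have : m + 1 + 1 - 1 + (m + 1 + 1 - 2) = 2 * m + 1 := by omega
            rw [this]; nlinarith
        have h8 : (bc 6 w + 2 * m ^ 2 : ℕ) ≤ bc 6 w' + m := by omega
        have h9 : ((bc 6 w + 2 * m ^ 2 : ℕ) : ℝ) ≤ ((bc 6 w' + m : ℕ) : ℝ) := by exact_mod_cast h8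
        push_cast at h9
        linarith
      have hs0 : (0 : ℝ) ≤ s := Nat.cast_nonneg s
      have hs2 : (s : ℝ) ≤ 3 := by exact_mod_cast Nat.lt_succ_iff.1 hs
      have hm0 : (0 : ℝ) ≤ m := Nat.cast_nonneg m
      subst hMs
      push_cast at hw2 ⊢
      nlinarith [mul_nonneg hm0 hs0, mul_nonneg hm0 (sub_nonneg.2 hs2),
        mul_nonneg hs0 (sub_nonneg.2 hs2)]

end Pool.Agent.Lib.MP_91c05b_co
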