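import Mathlib

/-!
# Wiring diagrams of pseudoline arrangements in the real projective plane

An arrangement of `n` pseudolines (simple or not) is given by a wiring diagram: `n` wires occupy the
positions `0, 1, …, n - 1` (from bottom to top), and from left to right they run through finitely
many crossings (the vertices of the arrangement). The right end of the diagram is glued to its
left end with a half turn; the resulting closed curves in the projective plane are the pseudolines.
-/

namespace Pool.Agent.Lib.MP_91c05b_co

/-- A crossing of a wiring diagram. The wires in the positions `lo, lo + 1, …, hi` run through the
crossing and leave it in the opposite order; all other wires keep their position. -/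
structure Crossing where
  /-- lowest position of a wire through the crossing -/
  lo : ℕ
  /-- highest position of a wire through the crossing -/
  hi : ℕ

/-- The wire in position `p` runs through the crossing. -/
def Crossing.Has (v : Crossing) (p : ℕ) : Prop := v.lo ≤ p ∧ p ≤ v.hi

/-- The position behind the crossing of the wire that is in position `p` in front of the
crossing. -/
def Crossing.move (v : Crossing) (p : ℕ) : ℕ :=
  if v.lo ≤ p ∧ p ≤ v.hi then v.lo + v.hi - p else p

/-- The gap `g` (the space between the positions `g - 1` and `g`) is interrupted by the crossing:
the wires on both sides of the gap run through the crossing. -/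
def Crossing.Cuts (v : Crossing) (g : ℕ) : Prop := v.lo < g ∧ g ≤ v.hi

/-- The crossing lies on the upper or on the lower boundary of the gap `g`: among the wires through
the crossing is exactly one of the two wires next to the gap. -/
def Crossing.Touches (v : Crossing) (g : ℕ) : Prop := v.lo = g ∨ v.hi + 1 = g

/-- `pos c t i` is the position, in front of the crossing number `t`, of the wire that starts in
position `i`. -/
def pos (c : ℕ → Crossing) : ℕ → ℕ → ℕ
  | 0, i => i
  | t + 1, i => (c t).move (pos c t i)

/-- An arrangement of `n` pseudolines in the real projective plane, given by a wiring diagram: the
crossings are `c 0, …, c (size - 1)` from left to right. Any two pseudolines have exactly one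
point in common (where they cross), and no point lies on all pseudolines. -/
structure Arrangement (n : ℕ) where
  /-- the number of vertices of the arrangement -/
  size : ℕ
  /-- the crossings, from left to right (only those with index less than `size` matter) -/
  c : ℕ → Crossing
  valid : ∀ t < size, (c t).lo < (c t).hi ∧ (c t).hi < n
  cross : ∀ i j, i < j → j < n →
    ∃! t, t < size ∧ (c t).Has (pos c t i) ∧ (c t).Has (pos c t j)
  not_concurrent : ∀ t < size, ∃ i < n, ¬ (c t).Has (pos c t i)

namespace Arrangement

variable {n : ℕ}

/-- The unrolled wiring diagram: behind the last crossing the diagram is continued by its copy
turned upside down (this is the gluing with a half turn), then again by an upright copy, and so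
on. -/
def unroll (A : Arrangement n) (t : ℕ) : Crossing :=
  if (t / A.size) % 2 = 0 then A.c (t % A.size)
  else ⟨n - 1 - (A.c (t % A.size)).hi, n - 1 - (A.c (t % A.size)).lo⟩

/-- The cell of the arrangement that begins at the crossing number `t` in the gap `g` has `k`
sides. It ends at the next crossing `s` of the unrolled diagram that interrupts the gap `g`; the
vertices of the cell are the crossings `t` and `s` and the crossings between them on the upper or
lower boundary of the gap, and the number of sides is the number of vertices. -/
def HasSides (A : Arrangement n) (t g k : ℕ) : Prop :=
  (A.unroll t).Cuts g ∧ ∃ s, t < s ∧ (A.unroll s).Cuts g ∧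
    (∀ u, t < u → u < s → ¬ (A.unroll u).Cuts g) ∧
    k = 2 + Set.ncard {u | t < u ∧ u < s ∧ (A.unroll u).Touches g}

/-- The number of sides of the outer cell, which lies above all wires and (on the other side of the
line at infinity) below all wires: the number of crossings through the highest position plus the
number of crossings through the lowest position. -/
noncomputable def outerSides (A : Arrangement n) : ℕ :=
  Set.ncard {t | t < A.size ∧ (A.c t).hi + 1 = n} + Set.ncard {t | t < A.size ∧ (A.c t).lo = 0}

open Classical in
/-- The number of `k`-sided cells of the arrangement: every cell except the outer one begins at
exactly one pair of a crossing `t < size` and a gap `g` interrupted by it. -/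
noncomputable def numCells (A : Arrangement n) (k : ℕ) : ℕ :=
  Set.ncard {p : ℕ × ℕ | p.1 < A.size ∧ A.HasSides p.1 p.2 k} +
    (if A.outerSides = k then 1 else 0)

end Arrangement

end Pool.Agent.Lib.MP_91c05b_co
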