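import Pool.Agent.Lib.MP_91c05b_co.Count

/-! Existence of the maximum and transfer from words to arrangements. -/

namespace Pool.Agent.Lib.MP_91c05b_co

theorem exists_max {n k : ℕ} (hn : 3 ≤ n) (hk : 4 ≤ k) {w : List ℕ} (h : IsRev n w) :
    ∃ p : ℕ, IsGreatest {m : ℕ | ∃ A : Arrangement n, A.numCells k = m} p ∧
      bc k w ≤ p ∧ (k - 3) * p + 3 ≤ n.choose 2 := by
  have hb : BddAbove {m : ℕ | ∃ A : Arrangement n, A.numCells k = m} := by
    refine ⟨n.choose 2, ?_⟩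
    rintro m ⟨A, rfl⟩
    have h1 := A.numCells_le (by omega) k
    have h2 : A.numCells k ≤ (k - 3) * A.numCells k := Nat.le_mul_of_pos_left _ (by omega)
    omega
  have hne : {m : ℕ | ∃ A : Arrangement n, A.numCells k = m}.Nonempty := ⟨_, ofWord hn h, rfl⟩
  have hm := Nat.sSup_mem hne hb
  refine ⟨sSup {m : ℕ | ∃ A : Arrangement n, A.numCells k = m}, ⟨hm, ?_⟩, ?_, ?_⟩
  · intro m hm'
    exact le_csSup hb hm'
  · exact (bc_le_numCells hn h k).trans (le_csSup hb ⟨_, rfl⟩)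
  · obtain ⟨A, hA⟩ := hm
    rw [← hA]
    exact A.numCells_le (by omega) k

theorem choose_two_real (n : ℕ) : 2 * ((n.choose 2 : ℕ) : ℝ) = (n : ℝ) ^ 2 - n := by
  have h := two_mul_choose n
  have h' : ((2 * n.choose 2 + n : ℕ) : ℝ) = ((n * n : ℕ) : ℝ) := by exact_mod_cast h
  push_cast at h'
  linarith

end Pool.Agent.Lib.MP_91c05b_co
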