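import Pool.Agent.Lib.MP_91c05b_co.Basic

/-! The upper bound `(k - 3) * p_k + 3 ≤ n.choose 2` for all arrangements. -/

namespace Pool.Agent.Lib.MP_91c05b_co

namespace Arrangement

open Finset Classical

variable {n : ℕ} (A : Arrangement n)

/-- the cells except the outer one -/
noncomputable def S : Finset (ℕ × ℕ) :=
  (range A.size ×ˢ range n).filter (fun p => (A.unroll p.1).Cuts p.2)

/-- next interruption of the gap -/
noncomputable def nxt (t g : ℕ) : ℕ :=
  if h : ∃ s, t < s ∧ (A.unroll s).Cuts g then Nat.find h else 0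

/-- touching crossings of a cell -/
noncomputable def T (p : ℕ × ℕ) : Finset ℕ :=
  (Ioo p.1 (A.nxt p.1 p.2)).filter (fun u => (A.unroll u).Touches p.2)

theorem nxt_spec (hs : 0 < A.size) {t g : ℕ} (h : (A.unroll t).Cuts g) :
    t < A.nxt t g ∧ (A.unroll (A.nxt t g)).Cuts g ∧
      ∀ u, t < u → u < A.nxt t g → ¬ (A.unroll u).Cuts g := by
  have hex : ∃ s, t < s ∧ (A.unroll s).Cuts g :=
    ⟨t + 2 * A.size, by omega, by rw [A.unroll_add_two hs]; exact h⟩
  unfold nxt
  rw [dif_pos hex]
  refine ⟨(Nat.find_spec hex).1, (Nat.find_spec hex).2, ?_⟩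
  intro u h1 h2 h3
  exact Nat.find_min hex h2 ⟨h1, h3⟩

theorem hasSides_iff (hs : 0 < A.size) {t g k : ℕ} (h : (A.unroll t).Cuts g) :
    A.HasSides t g k ↔ 2 + (A.T (t, g)).card = k := by
  obtain ⟨h1, h2, h3⟩ := A.nxt_spec hs h
  have hT : Set.ncard {u | t < u ∧ u < A.nxt t g ∧ (A.unroll u).Touches g}
      = (A.T (t, g)).card := by
    rw [← Set.ncard_coe_finset]
    congr 1
    ext u
    simp [T, and_assoc]
  constructor
  · rintro ⟨_, s, hs1, hs2, hs3, hk⟩
    have : s = A.nxt t g := by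
      rcases Nat.lt_trichotomy s (A.nxt t g) with hlt | heq | hgt
      · exact absurd hs2 (h3 s hs1 hlt)
      · exact heq
      · exact absurd h2 (hs3 _ h1 hgt)
    subst this
    rw [hk, hT]
  · intro hk
    exact ⟨h, _, h1, h2, h3, by rw [hT, hk]⟩

theorem mem_S {p : ℕ × ℕ} : p ∈ A.S ↔ p.1 < A.size ∧ (A.unroll p.1).Cuts p.2 := by
  simp only [S, mem_filter, mem_product, mem_range]
  constructor
  · rintro ⟨⟨h1, _⟩, h3⟩; exact ⟨h1, h3⟩
  · rintro ⟨h1, h3⟩
    have hs : 0 < A.size := by omega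
    have := (A.unroll_valid hs p.1).2
    refine ⟨⟨h1, ?_⟩, h3⟩
    unfold Crossing.Cuts at h3; omega

theorem ncard_eq (hs : 0 < A.size) (k : ℕ) :
    Set.ncard {p : ℕ × ℕ | p.1 < A.size ∧ A.HasSides p.1 p.2 k}
      = (A.S.filter (fun p => 2 + (A.T p).card = k)).card := by
  rw [← Set.ncard_coe_finset]
  congr 1
  ext ⟨t, g⟩
  simp only [Set.mem_ofPred_eq, coe_filter, mem_S]
  constructor
  · rintro ⟨h1, h2⟩
    exact ⟨⟨h1, h2.1⟩, (A.hasSides_iff hs h2.1).1 h2⟩
  · rintro ⟨⟨h1, h2⟩, h3⟩
    exact ⟨h1, (A.hasSides_iff hs h2).2 h3⟩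

theorem T_pos (hs : 0 < A.size) {p : ℕ × ℕ} (hp : p ∈ A.S) : 1 ≤ (A.T p).card := by
  rw [mem_S] at hp
  obtain ⟨h1, h2, h3⟩ := A.nxt_spec hs hp.2
  obtain ⟨u, hu1, hu2, hu3⟩ := A.exists_touch hs h1 hp.2 h2 h3
  apply card_pos.2
  exact ⟨u, by simp [T, hu1, hu2, hu3]⟩

/-- the inner incidences of touching crossings and gaps -/
noncomputable def I : Finset (ℕ × ℕ) :=
  (range A.size ×ˢ range n).filter (fun p => 1 ≤ p.2 ∧ (A.c p.1).Touches p.2)

/-- projection of an incidence to the fundamental domain -/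
noncomputable def red (u g : ℕ) : ℕ × ℕ :=
  if (u / A.size) % 2 = 0 then (u % A.size, g) else (u % A.size, n - g)

theorem cuts_range {t g : ℕ} (hs : 0 < A.size) (h : (A.unroll t).Cuts g) : 1 ≤ g ∧ g < n := by
  have := (A.unroll_valid hs t).2
  unfold Crossing.Cuts at h; omega

theorem unroll_cuts_add (hs : 0 < A.size) {t g : ℕ} (hg : g ≤ n) :
    (A.unroll (t + A.size)).Cuts g ↔ (A.unroll t).Cuts (n - g) := by
  rw [A.unroll_add hs]
  exact Crossing.flip_cuts (A.unroll_valid hs t).1 (A.unroll_valid hs t).2 hg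

theorem unroll_cuts_add_even (hs : 0 < A.size) (t g m : ℕ) :
    (A.unroll (t + 2 * m * A.size)).Cuts g ↔ (A.unroll t).Cuts g := by
  induction m with
  | zero => simp
  | succ m ih =>
    have : t + 2 * (m + 1) * A.size = (t + 2 * m * A.size) + 2 * A.size := by ring
    rw [this, A.unroll_add_two hs]; exact ih

theorem red_mem (hs : 0 < A.size) {u g : ℕ} (hg0 : 1 ≤ g) (hg : g < n)
    (h : (A.unroll u).Touches g) : A.red u g ∈ A.I := by
  have hm : u % A.size < A.size := Nat.mod_lt _ hs
  obtain ⟨h1, h2⟩ := A.valid _ hm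
  unfold red I
  unfold unroll at h
  split_ifs at h ⊢ with hc
  · simp only [mem_filter, mem_product, mem_range]
    exact ⟨⟨hm, hg⟩, hg0, h⟩
  · simp only [mem_filter, mem_product, mem_range]
    refine ⟨⟨hm, by omega⟩, by omega, ?_⟩
    have := (Crossing.flip_touches (v := A.c (u % A.size)) h1 h2 hg).1 h
    exact this

/-- key uniqueness: a touching incidence belongs to one cell only -/
theorem red_inj (hs : 0 < A.size) {t g u t' g' u' : ℕ}
    (ht : t < A.size) (ht' : t' < A.size)
    (hc : (A.unroll t).Cuts g) (hc' : (A.unroll t').Cuts g')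
    (h1 : t < u) (h2 : u < A.nxt t g) (h1' : t' < u') (h2' : u' < A.nxt t' g')
    (hr : A.red u g = A.red u' g') : t = t' ∧ g = g' ∧ u = u' := by
  obtain ⟨hg1, hg2⟩ := A.cuts_range hs hc
  obtain ⟨hg1', hg2'⟩ := A.cuts_range hs hc'
  have e1 := Nat.div_add_mod u A.size
  have e2 := Nat.div_add_mod u' A.size
  have hno := (A.nxt_spec hs hc).2.2
  have hno' := (A.nxt_spec hs hc').2.2
  -- general contradiction tool
  have tool : ∀ {t g u t' g' u' : ℕ}, t < A.size → t' < A.size →
      (A.unroll t).Cuts g → (A.unroll t').Cuts g' → t < u → u < A.nxt t g → t' < u' →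
      u' < A.nxt t' g' → A.red u g = A.red u' g' → u / A.size < u' / A.size → False := by
    intro t g u t' g' u' ht ht' hc hc' h1 h2 h1' h2' hr hlt
    obtain ⟨hg1, hg2⟩ := A.cuts_range hs hc
    obtain ⟨hg1', hg2'⟩ := A.cuts_range hs hc'
    have e1 := Nat.div_add_mod u A.size
    have e2 := Nat.div_add_mod u' A.size
    have hno' := (A.nxt_spec hs hc').2.2
    obtain ⟨d, hd⟩ : ∃ d, u' / A.size = u / A.size + d + 1 := ⟨u' / A.size - u / A.size - 1, by omega⟩
    have hmod : u % A.size = u' % A.size := by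
      unfold red at hr
      split_ifs at hr <;> simp only [Prod.mk.injEq] at hr <;> exact hr.1
    have hu' : u' = u + (d + 1) * A.size := by
      rw [← e2, ← e1, hd, hmod]; ring
    have hge : A.size ≤ (d + 1) * A.size := Nat.le_mul_of_pos_left _ (by omega)
    -- time t + (d+1) size interrupts gap g'
    apply hno' (t + (d + 1) * A.size) (by omega) (by omega)
    rcases Nat.even_or_odd (d + 1) with ⟨m, hm⟩ | ⟨m, hm⟩
    · have hpar : (u / A.size) % 2 = (u' / A.size) % 2 := by omega
      have hgg : g = g' := by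
        unfold red at hr
        rw [hpar] at hr
        split_ifs at hr <;> simp only [Prod.mk.injEq] at hr <;> omega
      subst hgg
      have : t + (d + 1) * A.size = t + 2 * m * A.size := by rw [hm]; ring
      rw [this, A.unroll_cuts_add_even hs]
      exact hc
    · have hpar : (u / A.size) % 2 ≠ (u' / A.size) % 2 := by omega
      have hgg : g = n - g' := by
        unfold red at hr
        split_ifs at hr <;> simp only [Prod.mk.injEq] at hr <;> omega
      have : t + (d + 1) * A.size = t + 2 * m * A.size + A.size := by rw [hm]; ring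
      rw [this, A.unroll_cuts_add hs (by omega), A.unroll_cuts_add_even hs, ← hgg]
      exact hc
  have hdiv : u / A.size = u' / A.size := by
    rcases Nat.lt_trichotomy (u / A.size) (u' / A.size) with h | h | h
    · exact (tool ht ht' hc hc' h1 h2 h1' h2' hr h).elim
    · exact h
    · exact (tool ht' ht hc' hc h1' h2' h1 h2 hr.symm h).elim
  have hmod : u % A.size = u' % A.size := by
    unfold red at hr
    split_ifs at hr <;> simp only [Prod.mk.injEq] at hr <;> exact hr.1
  have huu : u = u' := by rw [← e1, ← e2, hdiv, hmod]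
  have hgg : g = g' := by
    unfold red at hr
    rw [hdiv] at hr
    split_ifs at hr <;> simp only [Prod.mk.injEq] at hr <;> omega
  subst huu hgg
  refine ⟨?_, rfl, rfl⟩
  rcases Nat.lt_trichotomy t t' with h | h | h
  · exact (hno t' h (by omega) hc').elim
  · exact h
  · exact (hno' t h (by omega) hc).elim

theorem sum_T_le (hs : 0 < A.size) : ∑ p ∈ A.S, (A.T p).card ≤ A.I.card := by
  rw [← card_sigma]
  apply card_le_card_of_injOn (fun q => A.red q.2 q.1.2)
  · rintro ⟨⟨t, g⟩, u⟩ hq
    simp only [coe_sigma, Set.mem_sigma_iff, mem_coe, mem_S, T, mem_filter, mem_Ioo] at hq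
    obtain ⟨⟨_, h2⟩, _, h4⟩ := hq
    obtain ⟨a, b⟩ := A.cuts_range hs h2
    exact A.red_mem hs a b h4
  · rintro ⟨⟨t, g⟩, u⟩ hq ⟨⟨t', g'⟩, u'⟩ hq' hr
    simp only [coe_sigma, Set.mem_sigma_iff, mem_coe, mem_S, T, mem_filter, mem_Ioo] at hq hq'
    obtain ⟨⟨h1, h2⟩, ⟨h3, h3'⟩, _⟩ := hq
    obtain ⟨⟨h5, h6⟩, ⟨h7, h7'⟩, _⟩ := hq'
    obtain ⟨rfl, rfl, rfl⟩ := A.red_inj hs h1 h5 h2 h6 h3 h3' h7 h7' hr
    rfl

theorem I_card_le : A.I.card + A.outerSides ≤ 2 * A.size := by
  have hsub : A.I ⊆ ((range A.size).filter (fun u => 1 ≤ (A.c u).lo)).image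
        (fun u => (u, (A.c u).lo)) ∪
      ((range A.size).filter (fun u => (A.c u).hi + 1 < n)).image
        (fun u => (u, (A.c u).hi + 1)) := by
    rintro ⟨u, g⟩ h
    simp only [I, mem_filter, mem_product, mem_range] at h
    obtain ⟨⟨h1, h2⟩, h3, h4⟩ := h
    simp only [mem_union, mem_image, mem_filter, mem_range, Prod.mk.injEq]
    rcases h4 with h4 | h4
    · left; exact ⟨u, ⟨h1, by omega⟩, rfl, h4⟩
    · right; exact ⟨u, ⟨h1, by omega⟩, rfl, h4⟩
  have h1 := (card_le_card hsub).trans (card_union_le _ _)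
  have h2 := card_image_le (s := (range A.size).filter (fun u => 1 ≤ (A.c u).lo))
    (f := fun u => (u, (A.c u).lo))
  have h3 := card_image_le (s := (range A.size).filter (fun u => (A.c u).hi + 1 < n))
    (f := fun u => (u, (A.c u).hi + 1))
  have e1 : Set.ncard {t | t < A.size ∧ (A.c t).hi + 1 = n}
      = ((range A.size).filter (fun u => ¬ (A.c u).hi + 1 < n)).card := by
    rw [← Set.ncard_coe_finset]
    congr 1
    ext t
    simp only [Set.mem_ofPred_eq, coe_filter, mem_range]
    constructor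
    · rintro ⟨a, b⟩; exact ⟨a, by omega⟩
    · rintro ⟨a, b⟩; have := (A.valid t a).2; exact ⟨a, by omega⟩
  have e2 : Set.ncard {t | t < A.size ∧ (A.c t).lo = 0}
      = ((range A.size).filter (fun u => ¬ 1 ≤ (A.c u).lo)).card := by
    rw [← Set.ncard_coe_finset]
    congr 1
    ext t
    simp only [Set.mem_ofPred_eq, coe_filter, mem_range]
    constructor
    · rintro ⟨a, b⟩; exact ⟨a, by omega⟩
    · rintro ⟨a, b⟩; exact ⟨a, by omega⟩
  have f1 := card_filter_add_card_filter_not (s := range A.size) (fun u => (A.c u).hi + 1 < n)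
  have f2 := card_filter_add_card_filter_not (s := range A.size) (fun u => 1 ≤ (A.c u).lo)
  rw [card_range] at f1 f2
  unfold outerSides
  rw [e1, e2]
  omega

theorem size_le_S : A.size ≤ A.S.card := by
  have h : ((range A.size).image (fun u => (u, (A.c u).hi))) ⊆ A.S := by
    intro p hp
    simp only [mem_image, mem_range] at hp
    obtain ⟨u, hu, rfl⟩ := hp
    rw [mem_S]
    refine ⟨hu, ?_⟩
    rw [A.unroll_of_lt hu]
    have := (A.valid u hu).1
    unfold Crossing.Cuts; omega
  have h2 := card_le_card h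
  rw [card_image_of_injective _ (by intro a b hab; simp only [Prod.mk.injEq] at hab; exact hab.1),
    card_range] at h2
  exact h2

/-- `(k - 3) p_k + outer ≤ size` for the inner cells -/
theorem inner_bound (hs : 0 < A.size) (k : ℕ) :
    (k - 3) * (A.S.filter (fun p => 2 + (A.T p).card = k)).card + A.outerSides ≤ A.size := by
  have h1 : (k - 3) * (A.S.filter (fun p => 2 + (A.T p).card = k)).card
      ≤ ∑ p ∈ A.S, ((A.T p).card - 1) := by
    rw [mul_comm, ← smul_eq_mul, ← sum_const]
    calc ∑ _p ∈ A.S.filter (fun p => 2 + (A.T p).card = k), (k - 3)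
        ≤ ∑ p ∈ A.S.filter (fun p => 2 + (A.T p).card = k), ((A.T p).card - 1) := by
          apply sum_le_sum
          intro p hp
          rw [mem_filter] at hp
          omega
      _ ≤ ∑ p ∈ A.S, ((A.T p).card - 1) :=
          sum_le_sum_of_subset_of_nonneg (filter_subset _ _) (fun _ _ _ => Nat.zero_le _)
  have h2 : ∑ p ∈ A.S, ((A.T p).card - 1) + A.S.card = ∑ p ∈ A.S, (A.T p).card := by
    rw [card_eq_sum_ones, ← sum_add_distrib]
    apply sum_congr rfl
    intro p hp
    have := A.T_pos hs hp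
    omega
  have h3 := A.sum_T_le hs
  have h4 := A.I_card_le
  have h5 := A.size_le_S
  omega

theorem stay_forward {p i a b : ℕ} (hab : a ≤ b)
    (h : ∀ u, a ≤ u → u < b → ¬ (A.unroll u).Has p) (ha : A.P a i = p) : A.P b i = p := by
  induction b, hab using Nat.le_induction with
  | base => exact ha
  | succ b hb ih =>
    have := ih (fun u h1 h2 => h u h1 (by omega))
    rw [P_succ, this, Crossing.move_of_not_has (h b hb (by omega))]

theorem stay_backward {p i a b : ℕ} (hab : a ≤ b)
    (h : ∀ u, a ≤ u → u < b → ¬ (A.unroll u).Has p) (hb : A.P b i = p) : A.P a i = p := by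
  induction b, hab using Nat.le_induction with
  | base => exact hb
  | succ b hb' ih =>
    apply ih (fun u h1 h2 => h u h1 (by omega))
    rw [P_succ] at hb
    have h1 : ¬ (A.unroll b).Has (A.P b i) := by
      rw [← Crossing.has_move, hb]; exact h b hb' (by omega)
    rwa [Crossing.move_of_not_has h1] at hb

theorem outer_ge (hn : 2 ≤ n) : 3 ≤ A.outerSides := by
  have hs := A.size_pos hn
  have fin1 : Set.Finite {t | t < A.size ∧ (A.c t).hi + 1 = n} :=
    (Set.finite_lt_nat A.size).subset (fun t ht => ht.1)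
  have fin2 : Set.Finite {t | t < A.size ∧ (A.c t).lo = 0} :=
    (Set.finite_lt_nat A.size).subset (fun t ht => ht.1)
  have hP0 : A.P A.size 0 = n - 1 := by rw [A.P_size hs (by omega)]; omega
  have hPn : A.P A.size (n - 1) = 0 := by rw [A.P_size hs (by omega)]; omega
  have hasTop : ∀ u < A.size, (A.unroll u).Has (n - 1) → (A.c u).hi + 1 = n := by
    intro u hu h
    rw [A.unroll_of_lt hu] at h
    have := (A.valid u hu).2
    unfold Crossing.Has at h; omega
  have hasBot : ∀ u < A.size, (A.unroll u).Has 0 → (A.c u).lo = 0 := by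
    intro u hu h
    rw [A.unroll_of_lt hu] at h
    unfold Crossing.Has at h; omega
  have ne1 : {t | t < A.size ∧ (A.c t).hi + 1 = n}.Nonempty := by
    by_contra hcon
    rw [Set.not_nonempty_iff_eq_empty] at hcon
    have : A.P A.size (n - 1) = n - 1 := by
      apply A.stay_forward (Nat.zero_le _) _ rfl
      intro u _ h2 h3
      have : u ∈ {t | t < A.size ∧ (A.c t).hi + 1 = n} := ⟨h2, hasTop u h2 h3⟩
      rw [hcon] at this
      exact this
    omega
  have ne2 : {t | t < A.size ∧ (A.c t).lo = 0}.Nonempty := by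
    by_contra hcon
    rw [Set.not_nonempty_iff_eq_empty] at hcon
    have : A.P A.size 0 = 0 := by
      apply A.stay_forward (Nat.zero_le _) _ rfl
      intro u _ h2 h3
      have : u ∈ {t | t < A.size ∧ (A.c t).lo = 0} := ⟨h2, hasBot u h2 h3⟩
      rw [hcon] at this
      exact this
    omega
  have p1 : 0 < Set.ncard {t | t < A.size ∧ (A.c t).hi + 1 = n} := (Set.ncard_pos fin1).2 ne1
  have p2 : 0 < Set.ncard {t | t < A.size ∧ (A.c t).lo = 0} := (Set.ncard_pos fin2).2 ne2
  by_contra hlt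
  unfold outerSides at hlt
  have c1 : Set.ncard {t | t < A.size ∧ (A.c t).hi + 1 = n} = 1 := by omega
  have c2 : Set.ncard {t | t < A.size ∧ (A.c t).lo = 0} = 1 := by omega
  obtain ⟨t1, ht1⟩ := Set.ncard_eq_one.1 c1
  obtain ⟨t2, ht2⟩ := Set.ncard_eq_one.1 c2
  have m1 : t1 < A.size ∧ (A.c t1).hi + 1 = n := by
    have : t1 ∈ {t | t < A.size ∧ (A.c t).hi + 1 = n} := by rw [ht1]; rfl
    exact this
  have m2 : t2 < A.size ∧ (A.c t2).lo = 0 := by
    have : t2 ∈ {t | t < A.size ∧ (A.c t).lo = 0} := by rw [ht2]; rfl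
    exact this
  have u1 : ∀ u < A.size, u ≠ t1 → ¬ (A.unroll u).Has (n - 1) := by
    intro u hu hne h
    have : u ∈ {t | t < A.size ∧ (A.c t).hi + 1 = n} := ⟨hu, hasTop u hu h⟩
    rw [ht1] at this
    exact hne this
  have u2 : ∀ u < A.size, u ≠ t2 → ¬ (A.unroll u).Has 0 := by
    intro u hu hne h
    have : u ∈ {t | t < A.size ∧ (A.c t).lo = 0} := ⟨hu, hasBot u hu h⟩
    rw [ht2] at this
    exact hne this
  have v1 := A.valid t1 m1.1
  have v2 := A.valid t2 m2.1
  have meet1 : A.Meet t1 0 (n - 1) := by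
    have a : A.P t1 (n - 1) = n - 1 :=
      A.stay_forward (Nat.zero_le _) (fun u _ h2 => u1 u (by omega) (by omega)) rfl
    have b : A.P (t1 + 1) 0 = n - 1 :=
      A.stay_backward (by omega) (fun u h1 h2 => u1 u h2 (by omega)) hP0
    unfold Meet
    rw [← Crossing.has_move (p := A.P t1 0), ← P_succ, b, a, A.unroll_of_lt m1.1]
    unfold Crossing.Has; omega
  have meet2 : A.Meet t2 0 (n - 1) := by
    have a : A.P t2 0 = 0 :=
      A.stay_forward (Nat.zero_le _) (fun u _ h2 => u2 u (by omega) (by omega)) rfl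
    have b : A.P (t2 + 1) (n - 1) = 0 :=
      A.stay_backward (by omega) (fun u h1 h2 => u2 u h2 (by omega)) hPn
    unfold Meet
    rw [← Crossing.has_move (p := A.P t2 (n-1)), ← P_succ, b, a, A.unroll_of_lt m2.1]
    unfold Crossing.Has; omega
  obtain ⟨w, _, hw⟩ := A.exists_meet (show 0 < n by omega) (show n - 1 < n by omega)
    (show 0 ≠ n - 1 by omega)
  have e : t1 = t2 := by rw [hw t1 ⟨m1.1, meet1⟩, hw t2 ⟨m2.1, meet2⟩]
  subst e
  obtain ⟨i, hi, hnot⟩ := A.not_concurrent t1 m1.1
  apply hnot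
  have := A.P_lt hs hi t1
  rw [A.P_of_le m1.1.le] at this
  unfold Crossing.Has
  omega

theorem size_le_choose (hn : 2 ≤ n) : A.size ≤ n.choose 2 := by
  have hs := A.size_pos hn
  have hex : ∀ t < A.size, ∃ q : ℕ × ℕ, q.1 < n ∧ q.2 < n ∧ q.1 ≠ q.2 ∧ A.Meet t q.1 q.2 := by
    intro t ht
    obtain ⟨h1, h2⟩ := A.unroll_valid hs t
    obtain ⟨i, hi, hPi⟩ := A.P_surj hs t (show (A.unroll t).lo < n by omega)
    obtain ⟨j, hj, hPj⟩ := A.P_surj hs t h2
    refine ⟨(i, j), hi, hj, ?_, ?_⟩
    · rintro h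
      simp only at h
      subst h; omega
    · unfold Meet
      simp only [hPi, hPj]
      unfold Crossing.Has; omega
  choose! f hf using hex
  have : ((range A.size).image (fun t => ({(f t).1, (f t).2} : Finset ℕ))) ⊆
      powersetCard 2 (range n) := by
    intro s hs'
    rw [mem_image] at hs'
    obtain ⟨t, ht, rfl⟩ := hs'
    rw [mem_range] at ht
    obtain ⟨a, b, c, _⟩ := hf t ht
    rw [mem_powersetCard]
    refine ⟨?_, card_pair c⟩
    intro x hx
    rw [mem_insert, mem_singleton] at hx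
    rcases hx with rfl | rfl <;> simpa using by assumption
  have h2 := card_le_card this
  rw [card_powersetCard, card_range, card_image_of_injOn, card_range] at h2
  · exact h2
  · intro t ht t' ht' h
    rw [mem_coe, mem_range] at ht ht'
    obtain ⟨a, b, c, d⟩ := hf t ht
    obtain ⟨a', b', c', d'⟩ := hf t' ht'
    have d'' : A.Meet t' (f t).1 (f t).2 := by
      have h' : ({(f t).1, (f t).2} : Finset ℕ) = {(f t').1, (f t').2} := h
      have h1 : (f t).1 ∈ ({(f t').1, (f t').2} : Finset ℕ) := by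
        rw [← h']; simp
      have h2 : (f t).2 ∈ ({(f t').1, (f t').2} : Finset ℕ) := by
        rw [← h']; simp
      rw [mem_insert, mem_singleton] at h1 h2
      rcases h1 with h1 | h1 <;> rcases h2 with h2 | h2
      · exact absurd (h1.trans h2.symm) c
      · rw [h1, h2]; exact d'
      · rw [h1, h2]; exact A.meet_comm.1 d'
      · exact absurd (h1.trans h2.symm) c
    obtain ⟨w, _, hw⟩ := A.exists_meet a b c
    rw [hw t ⟨ht, d⟩, hw t' ⟨ht', d''⟩]

/-- the Euler bound -/
theorem numCells_le (hn : 2 ≤ n) (k : ℕ) :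
    (k - 3) * A.numCells k + 3 ≤ n.choose 2 := by
  have hs := A.size_pos hn
  have h1 := A.inner_bound hs k
  have h2 := A.outer_ge hn
  have h3 := A.size_le_choose hn
  unfold numCells
  rw [A.ncard_eq hs]
  split_ifs with h
  · rw [mul_add, mul_one]; omega
  · rw [add_zero]; omega

end Arrangement

end Pool.Agent.Lib.MP_91c05b_co
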