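import Pool.Agent.Lib.MP_91c05b_co.Upper

/-! Simple arrangements from words of gaps, and the number of their bounded cells. -/

namespace Pool.Agent.Lib.MP_91c05b_co

open Finset Classical

/-- the simple crossing that interrupts the gap `g` -/
def sc (g : ℕ) : Crossing := ⟨g - 1, g⟩

/-- position of a wire behind the word -/
def run (w : List ℕ) (p : ℕ) : ℕ := w.foldl (fun q g => (sc g).move q) p

theorem run_nil (p : ℕ) : run [] p = p := rfl

theorem run_cons (g : ℕ) (w : List ℕ) (p : ℕ) : run (g :: w) p = run w ((sc g).move p) := rfl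

theorem run_append (u v : List ℕ) (p : ℕ) : run (u ++ v) p = run v (run u p) := by
  unfold run; rw [List.foldl_append]

/-- the word is a simple wiring diagram of `n` wires in which every two wires cross exactly once -/
def IsRev (n : ℕ) (w : List ℕ) : Prop :=
  (∀ g ∈ w, 1 ≤ g ∧ g < n) ∧ w.length = n.choose 2 ∧ ∀ i < n, run w i = n - 1 - i

/-- the crossings of a word -/
def cw (w : List ℕ) (t : ℕ) : Crossing := sc (w.getD t 0)

theorem pos_cw (w : List ℕ) (t i : ℕ) (ht : t ≤ w.length) : pos (cw w) t i = run (w.take t) i := by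
  induction t with
  | zero => simp [pos, run]
  | succ t ih =>
    have h : t < w.length := by omega
    rw [List.take_succ_eq_append_getElem h, run_append, ← ih (by omega)]
    have : w.getD t 0 = w[t] := by simp [h]
    simp only [pos, cw, this, run_cons, run_nil]

section raw

variable {n : ℕ} {c : ℕ → Crossing}

theorem pos_lt (hc : ∀ t, (c t).hi < n) {i : ℕ} (hi : i < n) (t : ℕ) : pos c t i < n := by
  induction t with
  | zero => exact hi
  | succ t ih => exact Crossing.move_lt (hc t) ih

theorem pos_inj {t i j : ℕ} (h : pos c t i = pos c t j) : i = j := by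
  induction t with
  | zero => exact h
  | succ t ih => exact ih (Crossing.move_inj h)

theorem pos_surj (hc : ∀ t, (c t).hi < n) (t : ℕ) {p : ℕ} (hp : p < n) :
    ∃ i < n, pos c t i = p := by
  induction t generalizing p with
  | zero => exact ⟨p, hp, rfl⟩
  | succ t ih =>
    obtain ⟨i, hi, h⟩ := ih (Crossing.move_lt (hc t) hp)
    exact ⟨i, hi, by simp only [pos]; rw [h, Crossing.move_move]⟩

theorem pos_order {N i j : ℕ} (hij : i < j)
    (h : ∀ t < N, ¬ ((c t).Has (pos c t i) ∧ (c t).Has (pos c t j))) :
    pos c N i < pos c N j := by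
  induction N with
  | zero => exact hij
  | succ N ih =>
    simp only [pos]
    exact Crossing.move_lt_move_of_not (h N (by omega)) (ih (fun t ht => h t (by omega)))

end raw

theorem IsRev.gap {n : ℕ} {w : List ℕ} (h : IsRev n w) {t : ℕ} (ht : t < w.length) :
    1 ≤ w.getD t 0 ∧ w.getD t 0 < n := by
  have : w.getD t 0 = w[t] := by simp [ht]
  rw [this]
  exact h.1 _ (List.getElem_mem ht)

theorem IsRev.hi_lt {n : ℕ} {w : List ℕ} (h : IsRev n w) (hn : 0 < n) (t : ℕ) :
    (cw w t).hi < n := by
  by_cases ht : t < w.length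
  · exact (h.gap ht).2
  · have : w.getD t 0 = 0 := by simp [not_lt.1 ht]
    simp only [cw, sc, this]; exact hn

theorem IsRev.cross {n : ℕ} {w : List ℕ} (h : IsRev n w) :
    ∀ i j, i < j → j < n → ∃! t, t < w.length ∧
      (cw w t).Has (pos (cw w) t i) ∧ (cw w t).Has (pos (cw w) t j) := by
  intro i0 j0 hij0 hj0
  have hn : 0 < n := by omega
  set Q := (range n ×ˢ range n).filter (fun q : ℕ × ℕ => q.1 < q.2) with hQ
  set M : ℕ → ℕ × ℕ → Prop := fun t q =>
    (cw w t).Has (pos (cw w) t q.1) ∧ (cw w t).Has (pos (cw w) t q.2) with hM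
  have hQcard : Q.card = n.choose 2 := by
    have : Q.card = (powersetCard 2 (range n)).card := by
      apply card_bij (fun q _ => ({q.1, q.2} : Finset ℕ))
      · intro q hq
        simp only [hQ, mem_filter, mem_product, mem_range] at hq
        rw [mem_powersetCard]
        refine ⟨?_, card_pair (by omega)⟩
        intro x hx
        rw [mem_insert, mem_singleton] at hx
        rw [mem_range]
        rcases hx with rfl | rfl
        · exact hq.1.1
        · exact hq.1.2
      · intro q hq q' hq' he
        simp only [hQ, mem_filter, mem_product, mem_range] at hq hq'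
        have a1 : q.1 ∈ ({q'.1, q'.2} : Finset ℕ) := by rw [← he]; simp
        have a2 : q.2 ∈ ({q'.1, q'.2} : Finset ℕ) := by rw [← he]; simp
        rw [mem_insert, mem_singleton] at a1 a2
        ext <;> omega
      · intro s hs
        rw [mem_powersetCard] at hs
        obtain ⟨x, y, hxy, rfl⟩ := card_eq_two.1 hs.2
        have hx : x < n := mem_range.1 (hs.1 (by simp))
        have hy : y < n := mem_range.1 (hs.1 (by simp))
        rcases Nat.lt_or_gt_of_ne hxy with h' | h'
        · exact ⟨(x, y), by simp [hQ, hx, hy, h'], rfl⟩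
        · exact ⟨(y, x), by simp [hQ, hx, hy, h'], pair_comm _ _⟩
    rw [this, card_powersetCard, card_range]
  -- every crossing is the meeting point of exactly one pair
  have hone : ∀ t ∈ range w.length, (Q.filter (fun q => M t q)).card = 1 := by
    intro t ht
    rw [mem_range] at ht
    obtain ⟨g1, g2⟩ := h.gap ht
    obtain ⟨x, hx, hPx⟩ := pos_surj (h.hi_lt hn) t (show w.getD t 0 - 1 < n by omega)
    obtain ⟨y, hy, hPy⟩ := pos_surj (h.hi_lt hn) t g2
    have hxy : x ≠ y := by rintro rfl; omega
    have hpos : ∀ z, (cw w t).Has (pos (cw w) t z) → z = x ∨ z = y := by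
      intro z hz
      simp only [cw, sc, Crossing.Has] at hz
      have : pos (cw w) t z = w.getD t 0 - 1 ∨ pos (cw w) t z = w.getD t 0 := by
        omega
      rcases this with h' | h'
      · left; exact pos_inj (h'.trans hPx.symm)
      · right; exact pos_inj (h'.trans hPy.symm)
    have hxh : (cw w t).Has (pos (cw w) t x) := by
      rw [hPx]; simp only [cw, sc, Crossing.Has]; omega
    have hyh : (cw w t).Has (pos (cw w) t y) := by
      rw [hPy]; simp only [cw, sc, Crossing.Has]; omega
    rw [card_eq_one]
    refine ⟨(min x y, max x y), ?_⟩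
    ext q
    simp only [hQ, hM, mem_filter, mem_product, mem_range, mem_singleton]
    constructor
    · rintro ⟨⟨_, h2⟩, h3, h4⟩
      rcases hpos _ h3 with a | a <;> rcases hpos _ h4 with b | b
      · omega
      · ext
        · simp only; omega
        · simp only; omega
      · ext
        · simp only; omega
        · simp only; omega
      · omega
    · rintro rfl
      simp only
      rcases Nat.lt_or_gt_of_ne hxy with h' | h'
      · rw [min_eq_left h'.le, max_eq_right h'.le]
        exact ⟨⟨⟨hx, hy⟩, h'⟩, hxh, hyh⟩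
      · rw [min_eq_right h'.le, max_eq_left h'.le]
        exact ⟨⟨⟨hy, hx⟩, h'⟩, hyh, hxh⟩
  have hsum : ∑ q ∈ Q, ((range w.length).filter (fun t => M t q)).card = Q.card := by
    have : ∑ q ∈ Q, ((range w.length).filter (fun t => M t q)).card
        = ∑ t ∈ range w.length, (Q.filter (fun q => M t q)).card := by
      simp only [card_filter]
      exact sum_comm
    rw [this, sum_congr rfl hone, sum_const, smul_eq_mul, mul_one, card_range, h.2.1, hQcard]
  have hge : ∀ q ∈ Q, 1 ≤ ((range w.length).filter (fun t => M t q)).card := by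
    intro q hq
    simp only [hQ, mem_filter, mem_product, mem_range] at hq
    obtain ⟨⟨q1, q2⟩, q3⟩ := hq
    rw [Nat.one_le_iff_ne_zero, Ne, card_eq_zero, filter_eq_empty_iff]
    intro hcon
    have := pos_order (c := cw w) (N := w.length) q3 (fun t ht => hcon (mem_range.2 ht))
    rw [pos_cw w _ _ le_rfl, pos_cw w _ _ le_rfl, List.take_length, h.2.2 _ q1, h.2.2 _ q2] at this
    omega
  have hall : ∀ q ∈ Q, 1 = ((range w.length).filter (fun t => M t q)).card := by
    apply (sum_eq_sum_iff_of_le hge).1
    rw [hsum, sum_const, smul_eq_mul, mul_one]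
  have hq : (i0, j0) ∈ Q := by
    simp only [hQ, mem_filter, mem_product, mem_range]; exact ⟨⟨by omega, hj0⟩, hij0⟩
  obtain ⟨t0, ht0⟩ := card_eq_one.1 (hall _ hq).symm
  refine ⟨t0, ?_, ?_⟩
  · have : t0 ∈ (range w.length).filter (fun t => M t (i0, j0)) := by rw [ht0]; simp
    simp only [hM, mem_filter, mem_range] at this
    exact this
  · rintro s ⟨h1, h2⟩
    have : s ∈ (range w.length).filter (fun t => M t (i0, j0)) := by
      simp only [hM, mem_filter, mem_range]; exact ⟨h1, h2⟩
    rw [ht0, mem_singleton] at this
    exact this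

/-- the arrangement of a word -/
def ofWord {n : ℕ} (hn : 3 ≤ n) {w : List ℕ} (h : IsRev n w) : Arrangement n where
  size := w.length
  c := cw w
  valid := by
    intro t ht
    obtain ⟨h1, h2⟩ := h.gap ht
    simp only [cw, sc]; omega
  cross := h.cross
  not_concurrent := by
    intro t ht
    obtain ⟨h1, h2⟩ := h.gap ht
    obtain ⟨i, hi, hp⟩ := pos_surj (h.hi_lt (by omega)) t
      (show (if w.getD t 0 = 1 then 2 else 0) < n by split_ifs <;> omega)
    refine ⟨i, hi, ?_⟩
    rw [hp]
    simp only [cw, sc, Crossing.Has]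
    split_ifs <;> omega

/-- number of sides of the cell that begins with a crossing in the gap `g`, if it is closed within
the word -/
def cl (g : ℕ) : List ℕ → Option ℕ
  | [] => none
  | x :: xs => if x = g then some 2
      else if x = g + 1 ∨ x + 1 = g then (cl g xs).map (· + 1) else cl g xs

/-- number of the bounded `k`-sided cells of a word -/
def bc (k : ℕ) : List ℕ → ℕ
  | [] => 0
  | g :: xs => (if cl g xs = some k then 1 else 0) + bc k xs

/-- number of letters near `g` -/
def tc (g : ℕ) (v : List ℕ) : ℕ := v.countP (fun x => x = g + 1 ∨ x + 1 = g)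

theorem tc_cons (g x : ℕ) (v : List ℕ) :
    tc g (x :: v) = tc g v + (if x = g + 1 ∨ x + 1 = g then 1 else 0) := by
  unfold tc; rw [List.countP_cons]; simp

theorem tc_append (g : ℕ) (u v : List ℕ) : tc g (u ++ v) = tc g u + tc g v := by
  unfold tc; rw [List.countP_append]

theorem cl_append_of_notMem {g : ℕ} {v : List ℕ} (hg : g ∉ v) (z : List ℕ) :
    cl g (v ++ z) = (cl g z).map (· + tc g v) := by
  induction v with
  | nil => simp [tc]
  | cons x v ih =>
    rw [List.mem_cons, not_or] at hg
    rw [List.cons_append, tc_cons]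
    simp only [cl]
    rw [if_neg (Ne.symm hg.1), ih hg.2]
    split_ifs with h
    · rw [Option.map_map]; congr 1
    · simp

theorem cl_cons_self (g : ℕ) (z : List ℕ) : cl g (g :: z) = some 2 := by simp [cl]

theorem cl_eq_some {g k : ℕ} {w : List ℕ} (h : cl g w = some k) :
    ∃ v z, w = v ++ g :: z ∧ g ∉ v ∧ k = 2 + tc g v := by
  induction w generalizing k with
  | nil => simp [cl] at h
  | cons x w ih =>
    simp only [cl] at h
    split_ifs at h with h1 h2
    · subst h1
      refine ⟨[], w, rfl, by simp, ?_⟩
      simp only [Option.some.injEq] at h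
      simp [tc, h.symm]
    · rw [Option.map_eq_some_iff] at h
      obtain ⟨k', hk', rfl⟩ := h
      obtain ⟨v, z, rfl, hv, rfl⟩ := ih hk'
      refine ⟨x :: v, z, rfl, ?_, ?_⟩
      · rw [List.mem_cons, not_or]; exact ⟨Ne.symm h1, hv⟩
      · rw [tc_cons, if_pos h2]; omega
    · obtain ⟨v, z, rfl, hv, rfl⟩ := ih h
      refine ⟨x :: v, z, rfl, ?_, ?_⟩
      · rw [List.mem_cons, not_or]; exact ⟨Ne.symm h1, hv⟩
      · rw [tc_cons, if_neg h2, add_zero]

theorem cl_append_of_some {g k : ℕ} {u : List ℕ} (h : cl g u = some k) (v : List ℕ) :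
    cl g (u ++ v) = some k := by
  obtain ⟨a, z, rfl, ha, rfl⟩ := cl_eq_some h
  rw [List.append_assoc, List.cons_append, cl_append_of_notMem ha, cl_cons_self]
  simp

theorem bc_append (k : ℕ) (u v : List ℕ) : bc k u + bc k v ≤ bc k (u ++ v) := by
  induction u with
  | nil => simp [bc]
  | cons g u ih =>
    rw [List.cons_append]
    simp only [bc]
    have : (if cl g u = some k then 1 else 0) ≤ (if cl g (u ++ v) = some k then 1 else 0) := by
      by_cases h : cl g u = some k
      · rw [if_pos h, if_pos (cl_append_of_some h v)]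
      · rw [if_neg h]; exact Nat.zero_le _
    omega

theorem bc_eq_card (k : ℕ) (w : List ℕ) :
    bc k w = ((range w.length).filter
      (fun t => cl (w.getD t 0) (w.drop (t + 1)) = some k)).card := by
  induction w with
  | nil => simp [bc]
  | cons g w ih =>
    rw [card_filter] at ih
    rw [card_filter, List.length_cons, sum_range_succ']
    simp only [bc]
    rw [ih, add_comm]
    simp

theorem countP_eq_card (p : ℕ → Prop) [DecidablePred p] (v : List ℕ) :
    v.countP (fun x => p x) = ((range v.length).filter (fun i => p (v.getD i 0))).card := by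
  induction v with
  | nil => simp
  | cons g w ih =>
    rw [card_filter] at ih
    rw [card_filter, List.length_cons, sum_range_succ', List.countP_cons, ih]
    simp

theorem bc_le_numCells {n : ℕ} (hn : 3 ≤ n) {w : List ℕ} (h : IsRev n w) (k : ℕ) :
    bc k w ≤ (ofWord hn h).numCells k := by
  set A := ofWord hn h with hA
  have hsz : A.size = w.length := rfl
  have hs : 0 < A.size := A.size_pos (by omega)
  have hfin : Set.Finite {p : ℕ × ℕ | p.1 < A.size ∧ A.HasSides p.1 p.2 k} := by
    apply (Set.Finite.prod (Set.finite_lt_nat A.size) (Set.finite_lt_nat n)).subset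
    rintro ⟨t, g⟩ ⟨h1, h2⟩
    exact ⟨h1, (A.cuts_range hs h2.1).2⟩
  have hle : bc k w ≤ Set.ncard {p : ℕ × ℕ | p.1 < A.size ∧ A.HasSides p.1 p.2 k} := by
    rw [bc_eq_card, ← Set.ncard_coe_finset]
    have hinj : Set.InjOn (fun t => (t, w.getD t 0)) (↑((range w.length).filter
        (fun t => cl (w.getD t 0) (w.drop (t + 1)) = some k)) : Set ℕ) := by
      intro a _ b _ hab
      simp only [Prod.mk.injEq] at hab
      exact hab.1
    rw [← hinj.ncard_image]
    apply Set.ncard_le_ncard _ hfin
    rintro p ⟨t, ht, rfl⟩
    rw [mem_coe, mem_filter, mem_range] at ht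
    obtain ⟨ht1, ht2⟩ := ht
    refine ⟨ht1, ?_⟩
    obtain ⟨v, z, hv1, hv2, hv3⟩ := cl_eq_some ht2
    set g := w.getD t 0 with hg
    obtain ⟨hg1, hg2⟩ := h.gap ht1
    have hlen : t + 1 + v.length < w.length := by
      have := congrArg List.length hv1
      rw [List.length_drop, List.length_append, List.length_cons] at this
      omega
    have hget : ∀ u, t < u → u < w.length → w.getD u 0 = (v ++ g :: z).getD (u - t - 1) 0 := by
      intro u h1 h2
      rw [← hv1, List.getD_eq_getElem?_getD, List.getD_eq_getElem?_getD, List.getElem?_drop]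
      congr 2
      omega
    have hgetv : ∀ u, t < u → u < t + 1 + v.length → w.getD u 0 = v.getD (u - t - 1) 0 := by
      intro u h1 h2
      rw [hget u h1 (by omega), List.getD_append _ _ _ _ (by omega)]
    have hgets : w.getD (t + 1 + v.length) 0 = g := by
      rw [hget _ (by omega) hlen, List.getD_append_right _ _ _ _ (by omega)]
      have : t + 1 + v.length - t - 1 - v.length = 0 := by omega
      rw [this]; rfl
    have hc : ∀ u < w.length, A.unroll u = sc (w.getD u 0) := by
      intro u hu
      rw [A.unroll_of_lt (by rw [hsz]; exact hu)]; rfl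
    have hcut : ∀ u < w.length, (A.unroll u).Cuts g ↔ w.getD u 0 = g := by
      intro u hu
      obtain ⟨a, b⟩ := h.gap hu
      rw [hc u hu]
      simp only [sc, Crossing.Cuts]; omega
    have htouch : ∀ u < w.length,
        ((A.unroll u).Touches g ↔ (w.getD u 0 = g + 1 ∨ w.getD u 0 + 1 = g)) := by
      intro u hu
      obtain ⟨a, b⟩ := h.gap hu
      rw [hc u hu]
      simp only [sc, Crossing.Touches]; omega
    show A.HasSides t g k
    refine ⟨(hcut t ht1).2 rfl, t + 1 + v.length, by omega, (hcut _ hlen).2 hgets, ?_, ?_⟩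
    · intro u h1 h2 h3
      rw [hcut u (by omega), hgetv u h1 h2] at h3
      apply hv2
      rw [← h3, List.getD_eq_getElem _ _ (show u - t - 1 < v.length by omega)]
      exact List.getElem_mem _
    · rw [hv3]
      congr 1
      unfold tc
      rw [countP_eq_card, ← Set.ncard_coe_finset]
      rw [← Set.ncard_image_of_injective _ (add_left_injective (t + 1))]
      congr 1
      ext u
      simp only [Set.mem_image, mem_coe, mem_filter, mem_range, Set.mem_ofPred_eq]
      constructor
      · rintro ⟨i, ⟨hi1, hi2⟩, rfl⟩
        refine ⟨by omega, by omega, ?_⟩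
        rw [htouch _ (by omega), hgetv _ (by omega) (by omega)]
        have : i + (t + 1) - t - 1 = i := by omega
        rw [this]; exact hi2
      · rintro ⟨h1, h2, h3⟩
        refine ⟨u - t - 1, ⟨by omega, ?_⟩, by omega⟩
        rw [htouch u (by omega), hgetv u h1 h2] at h3
        exact h3
  unfold Arrangement.numCells
  omega

end Pool.Agent.Lib.MP_91c05b_co
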